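import Pool.Agent.helper825_CS.Fin

set_option autoImplicit false

/-! # Elements of given multiplicative order modulo a prime -/

namespace Pool.Agent.helper825_CS

open Finset Filter
open Pool.Agent.helper391_DG (F F_scale)

open scoped Classical

theorem four_omega (δ : ℝ) (hδ : 0 < δ) : ∃ C : ℝ, 1 ≤ C ∧ ∀ d : ℕ, 0 < d →
    (4 : ℝ) ^ d.primeFactors.card ≤ C * (d : ℝ) ^ δ := by
  obtain ⟨K, hK⟩ : ∃ K : ℕ, (4 : ℝ) ^ (1 / δ) ≤ K := exists_nat_ge _
  refine ⟨4 ^ (K + 1), one_le_pow₀ (by norm_num), fun d hd => ?_⟩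
  have h1 : (4 : ℝ) ^ d.primeFactors.card ≤
      ∏ p ∈ d.primeFactors, ((if p ≤ K then (4 : ℝ) else 1) * (p : ℝ) ^ δ) := by
    rw [← Finset.prod_const]
    apply Finset.prod_le_prod (fun _ _ => by norm_num)
    intro p hp
    have hpp := (Nat.mem_primeFactors.1 hp).1
    have hp1 : (1 : ℝ) ≤ p := by exact_mod_cast hpp.one_lt.le
    have hp2 : 1 ≤ (p : ℝ) ^ δ := Real.one_le_rpow hp1 hδ.le
    split_ifs with h
    · linarith
    · push Not at h
      have h3 : (4 : ℝ) ^ (1 / δ) ≤ p := hK.trans (by exact_mod_cast h.le)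
      have h4 : ((4 : ℝ) ^ (1 / δ)) ^ δ ≤ (p : ℝ) ^ δ :=
        Real.rpow_le_rpow (by positivity) h3 hδ.le
      rw [← Real.rpow_mul (by norm_num), one_div_mul_cancel hδ.ne', Real.rpow_one] at h4
      linarith
  refine h1.trans ?_
  rw [Finset.prod_mul_distrib]
  apply mul_le_mul
  · rw [Finset.prod_ite, Finset.prod_const, Finset.prod_const_one, mul_one]
    apply pow_le_pow_right₀ (by norm_num)
    calc (d.primeFactors.filter (fun p => p ≤ K)).card ≤ (Finset.range (K + 1)).card := by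
          apply Finset.card_le_card
          intro p hp
          rw [mem_filter] at hp
          rw [mem_range]
          omega
      _ = K + 1 := Finset.card_range _
  · rw [Real.finsetProd_rpow _ _ (fun p _ => Nat.cast_nonneg _)]
    apply Real.rpow_le_rpow (Finset.prod_nonneg (fun p _ => Nat.cast_nonneg _)) _ hδ.le
    have h2 : ((∏ p ∈ d.primeFactors, p : ℕ) : ℝ) ≤ d := by
      exact_mod_cast Nat.le_of_dvd hd (Nat.prod_primeFactors_dvd d)
    rw [Nat.cast_prod] at h2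
    exact h2
  · exact Finset.prod_nonneg (fun p _ => by positivity)
  · positivity

theorem le_totient (d : ℕ) : d ≤ d.totient * 2 ^ d.primeFactors.card := by
  rcases Nat.eq_zero_or_pos d with rfl | hd
  · simp
  have h1 := Nat.totient_mul_prod_primeFactors d
  have h2 : ∏ p ∈ d.primeFactors, p ≤ 2 ^ d.primeFactors.card * ∏ p ∈ d.primeFactors, (p - 1) := by
    rw [← Finset.prod_const, ← Finset.prod_mul_distrib]
    apply Finset.prod_le_prod' 
    intro p hp
    have := (Nat.mem_primeFactors.1 hp).1.two_le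
    omega
  have h3 : 0 < ∏ p ∈ d.primeFactors, (p - 1) := by
    apply Finset.prod_pos
    intro p hp
    have := (Nat.mem_primeFactors.1 hp).1.two_le
    omega
  refine Nat.le_of_mul_le_mul_right (c := ∏ p ∈ d.primeFactors, (p - 1)) ?_ h3
  rw [← h1, mul_assoc]
  exact Nat.mul_le_mul_left _ h2

section

variable {q : ℕ} [Fact q.Prime]

/-- the elements of a subgroup with `u ^ e ≠ 1` for all `e` in `s` -/
noncomputable def U (H : Subgroup (ZMod q)ˣ) (s : Finset ℕ) : Finset (ZMod q)ˣ :=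
  univ.filter (fun u => u ∈ H ∧ ∀ e ∈ s, u ^ e ≠ 1)

theorem U_bound (t : ZMod q) (ht : t ≠ 0) (s : Finset ℕ) : ∀ H : Subgroup (ZMod q)ˣ,
    ‖∑ u ∈ U H s, (ZMod.stdAddChar : AddChar (ZMod q) ℂ) (t * (u : ZMod q))‖ ≤
      2 ^ s.card * Real.sqrt q := by
  induction s using Finset.induction_on with
  | empty =>
    intro H
    have h1 := coset_T q H 1 t ht
    rw [T_coset] at h1
    unfold S at h1
    simp only [one_mul] at h1
    unfold U
    simpa using h1
  | insert e s he ih =>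
    intro H
    have h1 := ih H
    have h2 := ih (H ⊓ (powMonoidHom e : (ZMod q)ˣ →* (ZMod q)ˣ).ker)
    have h3 := Finset.sum_filter_add_sum_filter_not (U H s) (fun u => u ^ e = 1)
      (fun u => (ZMod.stdAddChar : AddChar (ZMod q) ℂ) (t * (u : ZMod q)))
    have h4 : (U H s).filter (fun u => u ^ e = 1) =
        U (H ⊓ (powMonoidHom e : (ZMod q)ˣ →* (ZMod q)ˣ).ker) s := by
      ext u
      unfold U
      simp only [mem_filter, mem_univ, true_and, Subgroup.mem_inf, MonoidHom.mem_ker, powMonoidHom_apply]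
      tauto
    have h5 : (U H s).filter (fun u => ¬ u ^ e = 1) = U H (insert e s) := by
      ext u
      unfold U
      simp only [mem_filter, mem_univ, true_and, Finset.forall_mem_insert, ne_eq]
      tauto
    rw [h4, h5] at h3
    have h6 : ∑ u ∈ U H (insert e s), (ZMod.stdAddChar : AddChar (ZMod q) ℂ) (t * (u : ZMod q)) =
        ∑ u ∈ U H s, (ZMod.stdAddChar : AddChar (ZMod q) ℂ) (t * (u : ZMod q)) -
        ∑ u ∈ U (H ⊓ (powMonoidHom e : (ZMod q)ˣ →* (ZMod q)ˣ).ker) s,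
          (ZMod.stdAddChar : AddChar (ZMod q) ℂ) (t * (u : ZMod q)) := by
      rw [← h3]; ring
    rw [h6, Finset.card_insert_of_notMem he, pow_succ]
    refine (norm_sub_le _ _).trans ?_
    linarith

/-- the elements of order `d` -/
noncomputable def O (q : ℕ) [Fact q.Prime] (d : ℕ) : Finset (ZMod q) :=
  (univ.filter (fun u : (ZMod q)ˣ => orderOf u = d)).image (fun u : (ZMod q)ˣ => (u : ZMod q))

theorem O_card (d : ℕ) (hd : d ∣ q - 1) : (O q d).card = d.totient := by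
  unfold O
  rw [card_image_of_injective _ Units.val_injective]
  apply IsCyclic.card_orderOf_eq_totient
  rw [ZMod.card_units]
  exact hd

theorem O_bound (d : ℕ) (hd : 0 < d) (t : ZMod q) (ht : t ≠ 0) :
    ‖T (O q d) t‖ ≤ 2 ^ d.primeFactors.card * Real.sqrt q := by
  have h1 : (univ.filter (fun u : (ZMod q)ˣ => orderOf u = d)) =
      U ((powMonoidHom d : (ZMod q)ˣ →* (ZMod q)ˣ).ker) (d.primeFactors.image (fun p => d / p)) := by
    ext u
    unfold U
    simp only [mem_filter, mem_univ, true_and, MonoidHom.mem_ker, powMonoidHom_apply, mem_image,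
      forall_exists_index, and_imp, forall_apply_eq_imp_iff₂]
    constructor
    · rintro rfl
      refine ⟨pow_orderOf_eq_one u, fun p hp => ?_⟩
      have hp' := Nat.mem_primeFactors.1 hp
      apply pow_ne_one_of_lt_orderOf
      · exact (Nat.div_pos (Nat.le_of_dvd hd hp'.2.1) hp'.1.pos).ne'
      · exact Nat.div_lt_self hd hp'.1.one_lt
    · rintro ⟨h2, h3⟩
      exact orderOf_eq_of_pow_and_pow_div_prime hd h2 (fun p hp hpd =>
        h3 p (Nat.mem_primeFactors.2 ⟨hp, hpd, hd.ne'⟩))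
  unfold T O
  rw [sum_image (fun _ _ _ _ h => Units.val_injective h), h1]
  refine (U_bound t ht _ _).trans ?_
  apply mul_le_mul_of_nonneg_right _ (Real.sqrt_nonneg _)
  exact pow_le_pow_right₀ (by norm_num) Finset.card_image_le

end

theorem order_gaps (ε : ℝ) (hε : 0 < ε) : ∃ c : ℝ, 0 < c ∧ ∃ q₀ : ℕ, ∀ q : ℕ, q₀ ≤ q → q.Prime →
    ∀ (d k : ℕ), d * k = q - 1 → ∀ (N L : ℕ), (k : ℝ) * (q : ℝ) ^ (1 / 2 + ε) ≤ L →
    ∃ n : ℕ, N < n ∧ n ≤ N + L ∧ orderOf (n : ZMod q) = d ∧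
      ∀ m : ℕ, |(m : ℝ) - n| ≤ c * F (Real.log q) →
        ¬ m.Prime ∧ ∃ p : ℕ, p.Prime ∧ (p : ℝ) ≤ (q : ℝ) ^ ε ∧ p ∣ m := by
  obtain ⟨ε', hε'⟩ : ∃ ε' : ℝ, ε' = min ε 1 / 2 := ⟨_, rfl⟩
  have hm0 : 0 < min ε 1 := lt_min hε one_pos
  have hε'0 : 0 < ε' := by rw [hε']; positivity
  have hε'1 : ε' ≤ 1 / 2 := by rw [hε']; linarith [min_le_right ε 1]
  have hε'ε : 0 < ε - ε' := by rw [hε']; linarith [min_le_left ε 1]
  obtain ⟨c, hc, q₀, hcore⟩ := core ε' hε'0 (by linarith)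
  obtain ⟨K, hK1, hK⟩ := four_omega ((ε - ε') / 2) (by linarith)
  have hcast : Tendsto (fun q : ℕ => (q : ℝ)) atTop atTop := tendsto_natCast_atTop_atTop
  have h2 : Tendsto (fun q : ℕ => (q : ℝ) ^ ((ε - ε') / 2)) atTop atTop :=
    (tendsto_rpow_atTop (by linarith)).comp hcast
  obtain ⟨q₁, hq₁⟩ := eventually_atTop.1 (h2.eventually_ge_atTop (2 * K))
  refine ⟨c, hc, max q₀ q₁, fun q hq hqp d k hdk N L hL => ?_⟩
  obtain ⟨hqa, hqb⟩ := max_le_iff.1 hq
  have b1 := hq₁ q hqb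
  have : Fact q.Prime := ⟨hqp⟩
  have hq2 : (2 : ℝ) ≤ q := by exact_mod_cast hqp.two_le
  have hq1 : (1 : ℝ) ≤ q := by linarith
  have hq0 : (0 : ℝ) < q := by linarith
  have hd : 0 < d := by
    rcases Nat.eq_zero_or_pos d with h | h
    · rw [h, zero_mul] at hdk
      have := hqp.two_le
      omega
    · exact h
  have hdq : d ≤ q := by
    have h3 : d ≤ q - 1 := Nat.le_of_dvd (by have := hqp.two_le; omega) ⟨k, hdk.symm⟩
    omega
  have hsz : 2 ^ d.primeFactors.card * Real.sqrt q * (q : ℝ) ^ (1 + ε') ≤ (L : ℝ) * (O q d).card := by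
    rw [O_card d ⟨k, hdk.symm⟩]
    have t1 : (d : ℝ) ≤ d.totient * 2 ^ d.primeFactors.card := by exact_mod_cast le_totient d
    have t2 : (d : ℝ) * k = q - 1 := by
      have : ((d * k : ℕ) : ℝ) = ((q - 1 : ℕ) : ℝ) := by rw [hdk]
      rw [Nat.cast_sub hqp.one_lt.le] at this
      push_cast at this
      exact this
    have t3 : (4 : ℝ) ^ d.primeFactors.card ≤ K * (q : ℝ) ^ ((ε - ε') / 2) := by
      refine (hK d hd).trans ?_
      apply mul_le_mul_of_nonneg_left _ (by linarith)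
      exact Real.rpow_le_rpow (Nat.cast_nonneg _) (by exact_mod_cast hdq) (by linarith)
    have t4 : 2 * (4 : ℝ) ^ d.primeFactors.card ≤ (q : ℝ) ^ (ε - ε') := by
      calc 2 * (4 : ℝ) ^ d.primeFactors.card ≤ (2 * K) * (q : ℝ) ^ ((ε - ε') / 2) := by linarith
        _ ≤ (q : ℝ) ^ ((ε - ε') / 2) * (q : ℝ) ^ ((ε - ε') / 2) :=
            mul_le_mul_of_nonneg_right b1 (by positivity)
        _ = (q : ℝ) ^ (ε - ε') := by rw [← Real.rpow_add hq0]; congr 1; ring
    have h7 : (q : ℝ) ^ (1 / 2 + ε) = Real.sqrt q * ((q : ℝ) ^ ε' * (q : ℝ) ^ (ε - ε')) := by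
      rw [Real.sqrt_eq_rpow, ← Real.rpow_add hq0, ← Real.rpow_add hq0]; congr 1; ring
    have h8 : (q : ℝ) ^ (1 + ε') = q * (q : ℝ) ^ ε' := by
      rw [Real.rpow_add hq0, Real.rpow_one]
    have hW : (0 : ℝ) < 2 ^ d.primeFactors.card := by positivity
    have h44 : (4 : ℝ) ^ d.primeFactors.card = 2 ^ d.primeFactors.card * 2 ^ d.primeFactors.card := by
      rw [← mul_pow]; norm_num
    refine le_of_mul_le_mul_right ?_ hW
    calc 2 ^ d.primeFactors.card * Real.sqrt q * (q : ℝ) ^ (1 + ε') * 2 ^ d.primeFactors.card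
        = Real.sqrt q * ((q : ℝ) ^ ε' * (2 * (4 : ℝ) ^ d.primeFactors.card)) * (q / 2) := by
          rw [h8, h44]; ring
      _ ≤ Real.sqrt q * ((q : ℝ) ^ ε' * (q : ℝ) ^ (ε - ε')) * (q - 1) := by
          apply mul_le_mul _ (by linarith) (by positivity) (by positivity)
          exact mul_le_mul_of_nonneg_left (mul_le_mul_of_nonneg_left t4 (by positivity))
            (by positivity)
      _ = (k : ℝ) * (q : ℝ) ^ (1 / 2 + ε) * d := by rw [h7, ← t2]; ring
      _ ≤ (L : ℝ) * (d.totient * 2 ^ d.primeFactors.card) := by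
          apply mul_le_mul hL t1 (Nat.cast_nonneg _) (Nat.cast_nonneg _)
      _ = (L : ℝ) * d.totient * 2 ^ d.primeFactors.card := by ring
  have hB : 1 ≤ 2 ^ d.primeFactors.card * Real.sqrt q := by
    have e1 : (1 : ℝ) ≤ 2 ^ d.primeFactors.card := one_le_pow₀ (by norm_num)
    have e2 : 1 ≤ Real.sqrt q := Real.one_le_sqrt.2 hq1
    nlinarith
  obtain ⟨n, hn1, hn2, hn3, hn4, hn5⟩ := hcore q hqa _ (2 ^ d.primeFactors.card * Real.sqrt q)
    hB (O_bound d hd) (N : ℤ) (L : ℤ) (Int.natCast_nonneg _)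
    (Int.natCast_nonneg _) (by exact_mod_cast hsz) 1 1 (by intro m _ _; simp)
  have hn0 : 0 ≤ n := by
    have : (0 : ℤ) ≤ N := Int.natCast_nonneg _
    omega
  obtain ⟨a, rfl⟩ := Int.eq_ofNat_of_zero_le hn0
  refine ⟨a, by exact_mod_cast hn1, by exact_mod_cast hn2, ?_, fun m hm => ?_⟩
  · unfold O at hn4
    rw [mem_image] at hn4
    obtain ⟨u, hu1, hu2⟩ := hn4
    rw [mem_filter] at hu1
    have e : ((a : ℕ) : ZMod q) = (u : ZMod q) := by rw [hu2]; push_cast; rfl
    rw [e, orderOf_units]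
    exact hu1.2
  · obtain ⟨p, hp1, hp2, hp3⟩ := hn5 m (by
      push_cast
      rw [mul_one]
      exact hm)
    have hpm : p ∣ m := by exact_mod_cast hp3
    have hn3' : c * F (Real.log q) + (q : ℝ) ^ (ε' / 10) < a := by exact_mod_cast hn3
    refine ⟨fun hmp => ?_, p, hp1, ?_, hpm⟩
    · have h1 : p = m := (Nat.prime_dvd_prime_iff_eq hp1 hmp).1 hpm
      rw [h1] at hp2
      have h3 := (abs_le.1 hm).1
      linarith
    · exact hp2.trans (Real.rpow_le_rpow_of_exponent_le hq1 (by linarith))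

end Pool.Agent.helper825_CS
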