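import Pool.Agent.helper825_CS.Core

set_option autoImplicit false

/-! # Cosets of subgroups of `(ℤ/q)ˣ`: least primes in progressions and gaps between primes -/

namespace Pool.Agent.helper825_CS

open Finset Filter
open Pool.Agent.helper391_DG (F F_scale)

open scoped Classical

theorem coset_size (ε ε' : ℝ) (q : ℕ) [Fact q.Prime] (h2 : (2 : ℝ) ≤ (q : ℝ) ^ (ε - ε'))
    (H : Subgroup (ZMod q)ˣ) (g : (ZMod q)ˣ) (L : ℝ)
    (hL : (H.index : ℝ) * (q : ℝ) ^ (1 / 2 + ε) ≤ L) :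
    Real.sqrt q * (q : ℝ) ^ (1 + ε') ≤
      L * (coset (univ.filter (fun u : (ZMod q)ˣ => u ∈ H)) g).card := by
  have hqp : q.Prime := Fact.out
  have hq2 : (2 : ℝ) ≤ q := by exact_mod_cast hqp.two_le
  have hq0 : (0 : ℝ) < q := by linarith
  rw [coset_card]
  have h3 : (univ.filter (fun u : (ZMod q)ˣ => u ∈ H)).card = Nat.card H := by
    rw [Nat.card_eq_fintype_card, Fintype.card_subtype]
  rw [h3]
  have h4 : Nat.card H * H.index = q - 1 := by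
    rw [Subgroup.card_mul_index, Nat.card_eq_fintype_card, ZMod.card_units]
  have h5 : (Nat.card H : ℝ) * H.index = q - 1 := by
    have : ((Nat.card H * H.index : ℕ) : ℝ) = ((q - 1 : ℕ) : ℝ) := by rw [h4]
    rw [Nat.cast_sub hqp.one_lt.le] at this
    push_cast at this
    exact this
  have h6 : (q : ℝ) / 2 ≤ q - 1 := by linarith
  have h7 : (q : ℝ) ^ (1 / 2 + ε) = Real.sqrt q * ((q : ℝ) ^ ε' * (q : ℝ) ^ (ε - ε')) := by
    rw [Real.sqrt_eq_rpow, ← Real.rpow_add hq0, ← Real.rpow_add hq0]; congr 1; ring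
  have h8 : (q : ℝ) ^ (1 + ε') = q * (q : ℝ) ^ ε' := by
    rw [Real.rpow_add hq0, Real.rpow_one]
  calc Real.sqrt q * (q : ℝ) ^ (1 + ε') = Real.sqrt q * ((q : ℝ) ^ ε' * 2) * (q / 2) := by
        rw [h8]; ring
    _ ≤ Real.sqrt q * ((q : ℝ) ^ ε' * (q : ℝ) ^ (ε - ε')) * (q - 1) := by
        apply mul_le_mul _ h6 (by positivity) (by positivity)
        exact mul_le_mul_of_nonneg_left (mul_le_mul_of_nonneg_left h2 (by positivity)) (by positivity)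
    _ = (H.index : ℝ) * (q : ℝ) ^ (1 / 2 + ε) * Nat.card H := by
        rw [h7, ← h5]; ring
    _ ≤ L * Nat.card H := mul_le_mul_of_nonneg_right hL (Nat.cast_nonneg _)

theorem coset_T (q : ℕ) [Fact q.Prime] (H : Subgroup (ZMod q)ˣ) (g : (ZMod q)ˣ) (t : ZMod q) (ht : t ≠ 0) :
    ‖T (coset (univ.filter (fun u : (ZMod q)ˣ => u ∈ H)) g) t‖ ≤ Real.sqrt q := by
  apply coset_bound _ _ _ _ _ t ht
  · intro u hu h hh
    rw [mem_filter] at hu hh ⊢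
    exact ⟨mem_univ _, H.mul_mem hu.2 hh.2⟩
  · intro u hu
    rw [mem_filter] at hu ⊢
    exact ⟨mem_univ _, H.inv_mem hu.2⟩
  · exact ⟨1, mem_filter.2 ⟨mem_univ _, H.one_mem⟩⟩

theorem mem_coset' (q : ℕ) [Fact q.Prime] (H : Subgroup (ZMod q)ˣ) (g : (ZMod q)ˣ) (x : ZMod q)
    (hx : x ∈ coset (univ.filter (fun u : (ZMod q)ˣ => u ∈ H)) g) :
    ∃ h ∈ H, x = ((g * h : (ZMod q)ˣ) : ZMod q) := by
  unfold coset at hx
  rw [mem_image] at hx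
  obtain ⟨h, hh, rfl⟩ := hx
  rw [mem_filter] at hh
  exact ⟨h, hh.2, rfl⟩

/-- from the core theorem to the least primes in a progression -/
theorem least_of (q : ℕ) (hqp : q.Prime) (ε' W : ℝ) (hε'0 : 0 < ε')
    (n N L : ℕ) (u : ℤ) (hnL : n ≤ N + L) (hNL : N + L ≤ q) (hW : W + (q : ℝ) ^ (ε' / 10) < n)
    (hW0 : 0 ≤ W)
    (huw : ∀ m : ℕ, 1 ≤ m → (m : ℝ) ≤ (q : ℝ) ^ ε' → (m : ℤ) ∣ u * q - 1)
    (hn : ∀ m : ℤ, |(m : ℝ) - (n : ℤ) * u| ≤ W →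
        ∃ p : ℕ, p.Prime ∧ (p : ℝ) ≤ (q : ℝ) ^ (ε' / 10) ∧ (p : ℤ) ∣ m)
    (p : ℕ) (hp : p.Prime) (hpn : p ≡ n [MOD q]) : q * W < p := by
  by_contra hcon
  push Not at hcon
  have hq0 : (0 : ℝ) < q := by exact_mod_cast hqp.pos
  have hq1 : (1 : ℝ) ≤ q := by exact_mod_cast hqp.one_lt.le
  have hnp : n ≤ p := by
    by_contra hlt
    push Not at hlt
    have h1 : q ∣ n - p := (Nat.modEq_iff_dvd' hlt.le).1 hpn
    have h2 := Nat.le_of_dvd (by omega) h1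
    have h3 := hp.pos
    omega
  obtain ⟨k, hk⟩ : ∃ k, p - n = q * k := (Nat.modEq_iff_dvd' hnp).1 hpn.symm
  have hpk : p = n + q * k := by omega
  have hkW : (k : ℝ) ≤ W := by
    have h1 : (q : ℝ) * k ≤ q * W := by
      have h2 : (q : ℝ) * k ≤ p := by
        rw [hpk]; push_cast
        have : (0 : ℝ) ≤ n := Nat.cast_nonneg _
        linarith
      linarith
    exact le_of_mul_le_mul_left h1 hq0
  obtain ⟨p', hp', hp'1, hp'2⟩ := hn ((n : ℤ) * u + k) (by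
    push_cast
    have e : (n : ℝ) * u + k - n * u = k := by ring
    rw [e, abs_of_nonneg (Nat.cast_nonneg _)]
    exact hkW)
  have h1 : (p' : ℤ) ∣ u * q - 1 := huw p' hp'.one_lt.le (hp'1.trans
    (Real.rpow_le_rpow_of_exponent_le hq1 (by linarith)))
  have h2 : (p' : ℤ) ∣ p := by
    have e : (p : ℤ) = ((n : ℤ) * u + k) * q - n * (u * q - 1) := by
      rw [hpk]; push_cast; ring
    rw [e]
    exact dvd_sub (hp'2.mul_right _) (h1.mul_left _)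
  have h3 : p' ∣ p := by exact_mod_cast h2
  have h4 : p' = p := (Nat.prime_dvd_prime_iff_eq hp' hp).1 h3
  rw [h4] at hp'1
  have h5 : (n : ℝ) ≤ p := by exact_mod_cast hnp
  linarith

theorem exists_inv (q : ℕ) (hqp : q.Prime) (ε' : ℝ) (hε' : ε' < 1) :
    ∃ u : ℤ, ∀ m : ℕ, 1 ≤ m → (m : ℝ) ≤ (q : ℝ) ^ ε' → (m : ℤ) ∣ u * q - 1 := by
  have hq1 : (1 : ℝ) < q := by exact_mod_cast hqp.one_lt
  have h1 : ⌊(q : ℝ) ^ ε'⌋₊ < q := by
    have h2 : (q : ℝ) ^ ε' < q := by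
      calc (q : ℝ) ^ ε' < (q : ℝ) ^ (1 : ℝ) := Real.rpow_lt_rpow_of_exponent_lt hq1 hε'
        _ = q := Real.rpow_one _
    have h3 : ((⌊(q : ℝ) ^ ε'⌋₊ : ℕ) : ℝ) ≤ (q : ℝ) ^ ε' := Nat.floor_le (by positivity)
    have h4 : ((⌊(q : ℝ) ^ ε'⌋₊ : ℕ) : ℝ) < q := by linarith
    exact_mod_cast h4
  have hcop : Nat.Coprime q (⌊(q : ℝ) ^ ε'⌋₊.factorial) := by
    rw [Nat.Prime.coprime_iff_not_dvd hqp, Nat.Prime.dvd_factorial hqp]
    omega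
  obtain ⟨a, b, hab⟩ := Nat.isCoprime_iff_coprime.2 hcop
  refine ⟨a, fun m hm1 hm2 => ?_⟩
  have h2 : m ∣ ⌊(q : ℝ) ^ ε'⌋₊.factorial := Nat.dvd_factorial (by omega) (Nat.le_floor hm2)
  have h3 : (m : ℤ) ∣ ((⌊(q : ℝ) ^ ε'⌋₊.factorial : ℕ) : ℤ) := by exact_mod_cast h2
  have e : a * (q : ℤ) - 1 = -(b * ((⌊(q : ℝ) ^ ε'⌋₊.factorial : ℕ) : ℤ)) := by linarith
  rw [e, dvd_neg]
  exact h3.mul_left _

theorem least (ε : ℝ) (hε : 0 < ε) : ∃ c : ℝ, 0 < c ∧ ∃ q₀ : ℕ, ∀ q : ℕ, q₀ ≤ q → q.Prime →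
    ∀ (H : Subgroup (ZMod q)ˣ) (g : (ZMod q)ˣ) (N L : ℕ), N + L ≤ q →
    (H.index : ℝ) * (q : ℝ) ^ (1 / 2 + ε) ≤ L →
    ∃ a : ℕ, N < a ∧ a ≤ N + L ∧ (∃ h ∈ H, (a : ZMod q) = ((g * h : (ZMod q)ˣ) : ZMod q)) ∧
      ∀ p : ℕ, p.Prime → p ≡ a [MOD q] → c * (q * F (Real.log q)) < p := by
  obtain ⟨ε', hε'⟩ : ∃ ε' : ℝ, ε' = min ε 1 / 2 := ⟨_, rfl⟩
  have hm0 : 0 < min ε 1 := lt_min hε one_pos
  have hε'0 : 0 < ε' := by rw [hε']; positivity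
  have hε'1 : ε' ≤ 1 / 2 := by rw [hε']; linarith [min_le_right ε 1]
  have hε'ε : 0 < ε - ε' := by rw [hε']; linarith [min_le_left ε 1]
  obtain ⟨c, hc, q₀, hcore⟩ := core ε' hε'0 (by linarith)
  have hcast : Tendsto (fun q : ℕ => (q : ℝ)) atTop atTop := tendsto_natCast_atTop_atTop
  have h2 : Tendsto (fun q : ℕ => (q : ℝ) ^ (ε - ε')) atTop atTop :=
    (tendsto_rpow_atTop hε'ε).comp hcast
  obtain ⟨R, hR⟩ := F_scale 1 one_pos
  have hlogq : Tendsto (fun q : ℕ => Real.log (q : ℝ)) atTop atTop :=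
    Real.tendsto_log_atTop.comp hcast
  obtain ⟨q₁, hq₁⟩ := eventually_atTop.1 ((h2.eventually_ge_atTop 2).and (hlogq.eventually_ge_atTop R))
  refine ⟨c, hc, max q₀ q₁, fun q hq hqp H g N L hNL hL => ?_⟩
  obtain ⟨hqa, hqb⟩ := max_le_iff.1 hq
  obtain ⟨b1, b2⟩ := hq₁ q hqb
  have : Fact q.Prime := ⟨hqp⟩
  have hq1 : (1 : ℝ) ≤ q := by exact_mod_cast hqp.one_lt.le
  obtain ⟨u, hu⟩ := exists_inv q hqp ε' (by linarith)
  have hsz := coset_size ε ε' q b1 H g (L : ℝ) hL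
  obtain ⟨n, hn1, hn2, hn3, hn4, hn5⟩ := hcore q hqa _ (Real.sqrt q)
    (Real.one_le_sqrt.2 hq1) (coset_T q H g) (N : ℤ) (L : ℤ) (Int.natCast_nonneg _)
    (Int.natCast_nonneg _) (by exact_mod_cast hsz) u q hu
  have hn0 : 0 ≤ n := by
    have : (0 : ℤ) ≤ N := Int.natCast_nonneg _
    omega
  obtain ⟨a, rfl⟩ := Int.eq_ofNat_of_zero_le hn0
  obtain ⟨f1, -⟩ := hR (Real.log q) b2 (Real.log q) (by linarith) le_rfl
  refine ⟨a, by exact_mod_cast hn1, by exact_mod_cast hn2, ?_, fun p hp hpa => ?_⟩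
  · obtain ⟨h, hh, he⟩ := mem_coset' q H g _ hn4
    refine ⟨h, hh, ?_⟩
    rw [← he]
    push_cast
    rfl
  · have h3 := least_of q hqp ε' (c * F (Real.log q)) hε'0 a N L u (by exact_mod_cast hn2) hNL
      (by exact_mod_cast hn3) (by positivity) hu hn5 p hp hpa
    calc c * (q * F (Real.log q)) = q * (c * F (Real.log q)) := by ring
      _ < p := h3

theorem gaps (ε : ℝ) (hε : 0 < ε) : ∃ c : ℝ, 0 < c ∧ ∃ q₀ : ℕ, ∀ q : ℕ, q₀ ≤ q → q.Prime →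
    ∀ (H : Subgroup (ZMod q)ˣ) (g : (ZMod q)ˣ) (N L : ℕ),
    (H.index : ℝ) * (q : ℝ) ^ (1 / 2 + ε) ≤ L →
    ∃ n : ℕ, N < n ∧ n ≤ N + L ∧ (∃ h ∈ H, (n : ZMod q) = ((g * h : (ZMod q)ˣ) : ZMod q)) ∧
      ∀ m : ℕ, |(m : ℝ) - n| ≤ c * F (Real.log q) →
        ¬ m.Prime ∧ ∃ p : ℕ, p.Prime ∧ (p : ℝ) ≤ (q : ℝ) ^ ε ∧ p ∣ m := by
  obtain ⟨ε', hε'⟩ : ∃ ε' : ℝ, ε' = min ε 1 / 2 := ⟨_, rfl⟩
  have hm0 : 0 < min ε 1 := lt_min hε one_pos
  have hε'0 : 0 < ε' := by rw [hε']; positivity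
  have hε'1 : ε' ≤ 1 / 2 := by rw [hε']; linarith [min_le_right ε 1]
  have hε'ε : 0 < ε - ε' := by rw [hε']; linarith [min_le_left ε 1]
  obtain ⟨c, hc, q₀, hcore⟩ := core ε' hε'0 (by linarith)
  have hcast : Tendsto (fun q : ℕ => (q : ℝ)) atTop atTop := tendsto_natCast_atTop_atTop
  have h2 : Tendsto (fun q : ℕ => (q : ℝ) ^ (ε - ε')) atTop atTop :=
    (tendsto_rpow_atTop hε'ε).comp hcast
  obtain ⟨q₁, hq₁⟩ := eventually_atTop.1 (h2.eventually_ge_atTop 2)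
  refine ⟨c, hc, max q₀ q₁, fun q hq hqp H g N L hL => ?_⟩
  obtain ⟨hqa, hqb⟩ := max_le_iff.1 hq
  have b1 := hq₁ q hqb
  have : Fact q.Prime := ⟨hqp⟩
  have hq1 : (1 : ℝ) ≤ q := by exact_mod_cast hqp.one_lt.le
  have hsz := coset_size ε ε' q b1 H g (L : ℝ) hL
  obtain ⟨n, hn1, hn2, hn3, hn4, hn5⟩ := hcore q hqa _ (Real.sqrt q)
    (Real.one_le_sqrt.2 hq1) (coset_T q H g) (N : ℤ) (L : ℤ) (Int.natCast_nonneg _)
    (Int.natCast_nonneg _) (by exact_mod_cast hsz) 1 1 (by intro m _ _; simp)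
  have hn0 : 0 ≤ n := by
    have : (0 : ℤ) ≤ N := Int.natCast_nonneg _
    omega
  obtain ⟨a, rfl⟩ := Int.eq_ofNat_of_zero_le hn0
  refine ⟨a, by exact_mod_cast hn1, by exact_mod_cast hn2, ?_, fun m hm => ?_⟩
  · obtain ⟨h, hh, he⟩ := mem_coset' q H g _ hn4
    refine ⟨h, hh, ?_⟩
    rw [← he]
    push_cast
    rfl
  · obtain ⟨p, hp1, hp2, hp3⟩ := hn5 m (by
      push_cast
      rw [mul_one]
      exact hm)
    have hpm : p ∣ m := by exact_mod_cast hp3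
    have hn3' : c * F (Real.log q) + (q : ℝ) ^ (ε' / 10) < a := by exact_mod_cast hn3
    refine ⟨fun hmp => ?_, p, hp1, ?_, hpm⟩
    · have h1 : p = m := (Nat.prime_dvd_prime_iff_eq hp1 hmp).1 hpm
      rw [h1] at hp2
      have h3 := (abs_le.1 hm).1
      linarith
    · exact hp2.trans (Real.rpow_le_rpow_of_exponent_le hq1 (by linarith))

end Pool.Agent.helper825_CS
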