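import Pool.Agent.helper825_CS.InvMain

set_option autoImplicit false

/-! # Large least primes in a class and in the inverse class modulo a prime -/

namespace Pool.Agent.helper825_CS

open Finset Filter
open Pool.Agent.helper391_DG (F F_scale)
open Pool.Agent.helper825_SB (Equi gen0S)
open Pool.Agent.H256R2.SC (ff)

open scoped Classical

/-- from the core theorem to the least primes in a progression -/
theorem least_of' (q : ℕ) (hqp : q.Prime) (ε' W : ℝ) (hε'0 : 0 < ε')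
    (n N L : ℕ) (u : ℤ) (hnL : n ≤ N + L) (hNL : N + L ≤ q) (hW : W + (q : ℝ) ^ (ε' / 10) < n)
    (hW0 : 0 ≤ W)
    (huw : ∀ m : ℕ, 1 ≤ m → (m : ℝ) ≤ (q : ℝ) ^ ε' → (m : ℤ) ∣ u * q - 1)
    (hn : ∀ m : ℤ, |(m : ℝ) - (n : ℤ) * u| ≤ W →
        ∃ p : ℕ, p.Prime ∧ (p : ℝ) ≤ (q : ℝ) ^ (ε' / 10) ∧ (p : ℤ) ∣ m)
    (p : ℕ) (hp : p.Prime) (hpn : p ≡ n [MOD q]) : q * W < p := by
  by_contra hcon
  push Not at hcon
  have hq0 : (0 : ℝ) < q := by exact_mod_cast hqp.pos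
  have hq1 : (1 : ℝ) ≤ q := by exact_mod_cast hqp.one_lt.le
  have hnp : n ≤ p := by
    by_contra hlt
    push Not at hlt
    have h1 : q ∣ n - p := (Nat.modEq_iff_dvd' hlt.le).1 hpn
    have h2 := Nat.le_of_dvd (by omega) h1
    have h3 := hp.pos
    omega
  obtain ⟨k, hk⟩ : ∃ k, p - n = q * k := (Nat.modEq_iff_dvd' hnp).1 hpn.symm
  have hpk : p = n + q * k := by omega
  have hkW : (k : ℝ) ≤ W := by
    have h1 : (q : ℝ) * k ≤ q * W := by
      have h2 : (q : ℝ) * k ≤ p := by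
        rw [hpk]; push_cast
        have : (0 : ℝ) ≤ n := Nat.cast_nonneg _
        linarith
      linarith
    exact le_of_mul_le_mul_left h1 hq0
  obtain ⟨p', hp', hp'1, hp'2⟩ := hn ((n : ℤ) * u + k) (by
    push_cast
    have e : (n : ℝ) * u + k - n * u = k := by ring
    rw [e, abs_of_nonneg (Nat.cast_nonneg _)]
    exact hkW)
  have h1 : (p' : ℤ) ∣ u * q - 1 := huw p' hp'.one_lt.le (hp'1.trans
    (Real.rpow_le_rpow_of_exponent_le hq1 (by linarith)))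
  have h2 : (p' : ℤ) ∣ p := by
    have e : (p : ℤ) = ((n : ℤ) * u + k) * q - n * (u * q - 1) := by
      rw [hpk]; push_cast; ring
    rw [e]
    exact dvd_sub (hp'2.mul_right _) (h1.mul_left _)
  have h3 : p' ∣ p := by exact_mod_cast h2
  have h4 : p' = p := (Nat.prime_dvd_prime_iff_eq hp' hp).1 h3
  rw [h4] at hp'1
  have h5 : (n : ℝ) ≤ p := by exact_mod_cast hnp
  linarith

theorem exists_inv' (q : ℕ) (hqp : q.Prime) (ε' : ℝ) (hε' : ε' < 1) :
    ∃ u : ℤ, ∀ m : ℕ, 1 ≤ m → (m : ℝ) ≤ (q : ℝ) ^ ε' → (m : ℤ) ∣ u * q - 1 := by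
  have hq1 : (1 : ℝ) < q := by exact_mod_cast hqp.one_lt
  have h1 : ⌊(q : ℝ) ^ ε'⌋₊ < q := by
    have h2 : (q : ℝ) ^ ε' < q := by
      calc (q : ℝ) ^ ε' < (q : ℝ) ^ (1 : ℝ) := Real.rpow_lt_rpow_of_exponent_lt hq1 hε'
        _ = q := Real.rpow_one _
    have h3 : ((⌊(q : ℝ) ^ ε'⌋₊ : ℕ) : ℝ) ≤ (q : ℝ) ^ ε' := Nat.floor_le (by positivity)
    have h4 : ((⌊(q : ℝ) ^ ε'⌋₊ : ℕ) : ℝ) < q := by linarith
    exact_mod_cast h4
  have hcop : Nat.Coprime q (⌊(q : ℝ) ^ ε'⌋₊.factorial) := by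
    rw [Nat.Prime.coprime_iff_not_dvd hqp, Nat.Prime.dvd_factorial hqp]
    omega
  obtain ⟨a, b, hab⟩ := Nat.isCoprime_iff_coprime.2 hcop
  refine ⟨a, fun m hm1 hm2 => ?_⟩
  have h2 : m ∣ ⌊(q : ℝ) ^ ε'⌋₊.factorial := Nat.dvd_factorial (by omega) (Nat.le_floor hm2)
  have h3 : (m : ℤ) ∣ ((⌊(q : ℝ) ^ ε'⌋₊.factorial : ℕ) : ℤ) := by exact_mod_cast h2
  have e : a * (q : ℤ) - 1 = -(b * ((⌊(q : ℝ) ^ ε'⌋₊.factorial : ℕ) : ℤ)) := by linarith
  rw [e, dvd_neg]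
  exact h3.mul_left _

theorem equi_scale (Z : ℕ) (A : Finset (Fin 2 → ℤ)) (N₀ : ℝ) (h : Equi 2 Z A N₀) (u w : ℤ) (hu : u ≠ 0)
    (huw : ∀ m : ℕ, 1 ≤ m → (m : ℝ) ≤ Z → (m : ℤ) ∣ u * w - 1) :
    Equi 2 Z (A.image (fun v j => u * v j)) N₀ := by
  refine ⟨h.1, fun m hm hmZ c => ?_⟩
  have h1 := h.2 m hm hmZ (fun j => c j * w)
  have hd := huw m hm hmZ
  have hinj : Function.Injective (fun (v : Fin 2 → ℤ) (j : Fin 2) => u * v j) := by
    intro v v' e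
    funext j
    exact mul_left_cancel₀ hu (congrFun e j)
  have h2 : ((A.image (fun v j => u * v j)).filter (fun x : Fin 2 → ℤ => ∀ j, (m : ℤ) ∣ x j - c j)).card =
      (A.filter (fun v : Fin 2 → ℤ => ∀ j, (m : ℤ) ∣ v j - c j * w)).card := by
    rw [Finset.filter_image, card_image_of_injective _ hinj]
    congr 1
    apply Finset.filter_congr
    intro v _
    constructor
    · intro h3 j
      have e : v j - c j * w = (u * v j - c j) * w - v j * (u * w - 1) := by ring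
      rw [e]
      exact dvd_sub ((h3 j).mul_right _) (hd.mul_left _)
    · intro h3 j
      have e : u * v j - c j = (v j - c j * w) * u + c j * (u * w - 1) := by ring
      show (m : ℤ) ∣ u * v j - c j
      rw [e]
      exact dvd_add ((h3 j).mul_right _) (hd.mul_left _)
  rw [h2]
  exact h1

theorem inv_least (ε : ℝ) (hε : 0 < ε) : ∃ κ : ℝ, 0 < κ ∧ ∃ q₀ : ℕ, ∀ q : ℕ, q₀ ≤ q → q.Prime →
    ∀ a : ZMod q, a ≠ 0 → ∀ N L M K : ℕ, N + L ≤ q → M + K ≤ q →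
    (q : ℝ) ^ (3 / 2 + ε) ≤ (L : ℝ) * K →
    ∃ x y : ℕ, N < x ∧ x ≤ N + L ∧ M < y ∧ y ≤ M + K ∧ (x : ZMod q) * (y : ZMod q) = a ∧
      ∀ p : ℕ, p.Prime → (p ≡ x [MOD q] ∨ p ≡ y [MOD q]) → κ * (q * F (Real.log q)) < p := by
  obtain ⟨c, hc, Z₀, hmain⟩ := coord
  obtain ⟨δ, hδd⟩ : ∃ δ : ℝ, δ = min ε 1 / 5 := ⟨_, rfl⟩
  have hm0 : 0 < min ε 1 := lt_min hε one_pos
  have hδ0 : 0 < δ := by rw [hδd]; positivity
  have hδ1 : δ ≤ 1 / 5 := by rw [hδd]; linarith [min_le_right ε 1]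
  have hδε : 5 * δ ≤ ε := by rw [hδd]; linarith [min_le_left ε 1]
  obtain ⟨R, hR⟩ := F_scale (δ / 2) (by positivity)
  obtain ⟨κ, hκd⟩ : ∃ κ : ℝ, κ = min 1 (c * (δ / 2 / 8)) := ⟨_, rfl⟩
  have hκ0 : 0 < κ := by rw [hκd]; exact lt_min one_pos (by positivity)
  have hκ1 : κ ≤ 1 := by rw [hκd]; exact min_le_left _ _
  have hκc : κ ≤ c * (δ / 2 / 8) := by rw [hκd]; exact min_le_right _ _
  have hcast : Tendsto (fun q : ℕ => (q : ℝ)) atTop atTop := tendsto_natCast_atTop_atTop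
  have hlogq : Tendsto (fun q : ℕ => Real.log (q : ℝ)) atTop atTop :=
    Real.tendsto_log_atTop.comp hcast
  have hX : Tendsto (fun q : ℕ => (q : ℝ) ^ δ) atTop atTop := (tendsto_rpow_atTop hδ0).comp hcast
  have hX2 : Tendsto (fun q : ℕ => (q : ℝ) ^ (δ / 2)) atTop atTop :=
    (tendsto_rpow_atTop (by positivity)).comp hcast
  have hlog4 : ∀ᶠ q : ℕ in atTop, (Real.log q) ^ 4 ≤ (q : ℝ) ^ δ / 4 := by
    have h1 := (isLittleO_log_rpow_rpow_atTop 4 hδ0).def (show (0 : ℝ) < 1 / 4 by norm_num)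
    filter_upwards [hcast.eventually h1, eventually_ge_atTop 1] with q h2 h3
    have h4 : (Real.log q) ^ (4 : ℝ) = (Real.log q) ^ 4 := by
      rw [show (4 : ℝ) = ((4 : ℕ) : ℝ) by norm_num, Real.rpow_natCast]
    rw [h4, Real.norm_eq_abs, Real.norm_eq_abs,
      abs_of_nonneg (show (0 : ℝ) ≤ (q : ℝ) ^ δ by positivity)] at h2
    have := le_abs_self ((Real.log q) ^ 4)
    linarith
  have hlog2 : ∀ᶠ q : ℕ in atTop, 2 * (2 + Real.log q) ^ 2 + 3 ≤ (q : ℝ) ^ (ε / 2) / 4 := by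
    have h1 := (isLittleO_log_rpow_rpow_atTop 4 (show 0 < ε / 2 by positivity)).def
      (show (0 : ℝ) < 1 / 4 by norm_num)
    filter_upwards [hcast.eventually h1, eventually_ge_atTop 1, hlogq.eventually_ge_atTop 4] with q h2 h3 h5
    have h4 : (Real.log q) ^ (4 : ℝ) = (Real.log q) ^ 4 := by
      rw [show (4 : ℝ) = ((4 : ℕ) : ℝ) by norm_num, Real.rpow_natCast]
    rw [h4, Real.norm_eq_abs, Real.norm_eq_abs,
      abs_of_nonneg (show (0 : ℝ) ≤ (q : ℝ) ^ (ε / 2) by positivity)] at h2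
    have h6 := le_abs_self ((Real.log q) ^ 4)
    have h7 : 2 * (2 + Real.log q) ^ 2 + 3 ≤ (Real.log q) ^ 4 := by
      have h8 : (16 : ℝ) ≤ (Real.log q) ^ 2 := by nlinarith
      have h9 : 16 * (Real.log q) ^ 2 ≤ (Real.log q) ^ 2 * (Real.log q) ^ 2 :=
        mul_le_mul_of_nonneg_right h8 (by positivity)
      have h10 : (Real.log q) ^ 2 * (Real.log q) ^ 2 = (Real.log q) ^ 4 := by ring
      rw [← h10]
      nlinarith
    linarith
  obtain ⟨q₀, hq₀⟩ := eventually_atTop.1 ((((hX.eventually_ge_atTop (max Z₀ 1 * 2 + 16)).and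
    (hX2.eventually_ge_atTop 2)).and
    ((hlogq.eventually_ge_atTop R).and (hlogq.eventually Pool.Agent.helper825_SB.F_le))).and
      ((hlog4.and hlog2).and (eventually_ge_atTop 2)))
  refine ⟨κ, hκ0, q₀, fun q hq hqp a ha N L M K hNL hMK hLK => ?_⟩
  have hL : L ≤ q := by omega
  have hK : K ≤ q := by omega
  obtain ⟨⟨⟨b1, b1'⟩, b2, b3⟩, ⟨b4, b5⟩, b6⟩ := hq₀ q hq
  have : Fact q.Prime := ⟨hqp⟩
  have hq2 : (2 : ℝ) ≤ q := by exact_mod_cast b6
  have hq1 : (1 : ℝ) ≤ q := by linarith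
  have hq0 : (0 : ℝ) < q := by linarith
  obtain ⟨X, hXd⟩ : ∃ X : ℝ, X = (q : ℝ) ^ δ := ⟨_, rfl⟩
  rw [← hXd] at b1 b4
  have hZ01 : (1 : ℝ) ≤ max Z₀ 1 := le_max_right _ _
  have hX16 : 16 ≤ X := by linarith
  obtain ⟨Z, hZd⟩ : ∃ Z : ℕ, Z = ⌊X⌋₊ := ⟨_, rfl⟩
  have hZX : (Z : ℝ) ≤ X := by rw [hZd]; exact Nat.floor_le (by linarith)
  have hXZ : X < Z + 1 := by rw [hZd]; exact Nat.lt_floor_add_one X
  have hXZ2 : X / 2 ≤ Z := by linarith
  have hZ0' : Z₀ ≤ Z := by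
    have := le_max_left Z₀ 1
    linarith
  have hZ1 : 1 ≤ Z := by
    have : (1 : ℝ) ≤ Z := by linarith
    exact_mod_cast this
  have hXX : X * X ≤ (q : ℝ) ^ (1 / 2 + ε) := by
    rw [hXd, ← Real.rpow_add hq0]
    exact Real.rpow_le_rpow_of_exponent_le hq1 (by linarith)
  have hXq : X * X ≤ q := by
    rw [hXd, ← Real.rpow_add hq0]
    calc (q : ℝ) ^ (δ + δ) ≤ (q : ℝ) ^ (1 : ℝ) := Real.rpow_le_rpow_of_exponent_le hq1 (by linarith)
      _ = q := Real.rpow_one _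
  have hZq : Z < q := by
    have : (Z : ℝ) < q := by nlinarith
    exact_mod_cast this
  have e74 : (q : ℝ) ^ (3 / 2 + ε) = (q : ℝ) ^ (1 / 2 + ε) * q := by
    rw [show (3 / 2 + ε : ℝ) = (1 / 2 + ε) + 1 by ring, Real.rpow_add hq0, Real.rpow_one]
  have hLR : (L : ℝ) ≤ q := by exact_mod_cast hL
  have hKR : (K : ℝ) ≤ q := by exact_mod_cast hK
  have hL2 : 2 * Z ≤ L := by
    have h1 : (q : ℝ) ^ (1 / 2 + ε) ≤ L := by
      refine le_of_mul_le_mul_right ?_ hq0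
      rw [← e74]
      exact hLK.trans (mul_le_mul_of_nonneg_left hKR (Nat.cast_nonneg _))
    have h2 : (2 : ℝ) * Z ≤ L := by nlinarith
    exact_mod_cast h2
  have hK2 : 2 * Z ≤ K := by
    have h1 : (q : ℝ) ^ (1 / 2 + ε) ≤ K := by
      refine le_of_mul_le_mul_right ?_ hq0
      rw [← e74]
      refine hLK.trans ?_
      rw [mul_comm]
      exact mul_le_mul_of_nonneg_left hLR (Nat.cast_nonneg _)
    have h2 : (2 : ℝ) * Z ≤ K := by nlinarith
    exact_mod_cast h2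
  obtain ⟨L', hL'⟩ : ∃ L' : ℤ, L' = L - Z := ⟨_, rfl⟩
  obtain ⟨K', hK'⟩ : ∃ K' : ℤ, K' = K - Z := ⟨_, rfl⟩
  have hL'2 : (L : ℝ) ≤ 2 * L' := by
    have : (L : ℤ) ≤ 2 * L' := by omega
    exact_mod_cast this
  have hK'2 : (K : ℝ) ≤ 2 * K' := by
    have : (K : ℤ) ≤ 2 * K' := by omega
    exact_mod_cast this
  have hLK' : (q : ℝ) ^ (3 / 2 + ε) ≤ 4 * ((L' : ℝ) * K') := by
    have h1 : (L : ℝ) * K ≤ (2 * L') * (2 * K') :=
      mul_le_mul hL'2 hK'2 (Nat.cast_nonneg _) (by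
        have : (0 : ℝ) ≤ L := Nat.cast_nonneg _
        linarith)
    linarith
  have hEq := equi_Hyp ε δ hδ0 hδε q Z hZ1 (by rw [← hXd]; exact hZX) hZq b5 a ha (N + Z) L' (M + Z) K'
    (by omega) (by omega) (by omega) (by omega) hLK'
  obtain ⟨u, hu⟩ := exists_inv' q hqp δ (by linarith)
  have hu0 : u ≠ 0 := by
    rintro rfl
    have h1 := hu 2 (by norm_num) (by rw [← hXd]; push_cast; linarith)
    norm_num at h1
  have hEq2 := equi_scale Z _ _ hEq u q hu0 (fun m hm1 hm2 => hu m hm1 (by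
    rw [← hXd]; exact hm2.trans hZX))
  obtain ⟨v', hv', hvp⟩ := hmain Z hZ0' _ _ hEq2
  rw [mem_image] at hv'
  obtain ⟨v, hv, rfl⟩ := hv'
  rw [mem_Hyp] at hv
  obtain ⟨⟨hv0, hv1⟩, hva⟩ := hv
  rw [mem_Ioc] at hv0 hv1
  obtain ⟨x, hx⟩ := Int.eq_ofNat_of_zero_le (show 0 ≤ v 0 by omega)
  obtain ⟨y, hy⟩ := Int.eq_ofNat_of_zero_le (show 0 ≤ v 1 by omega)
  rw [hx] at hv0
  rw [hy] at hv1
  -- the scale
  have hlogZ : δ / 2 * Real.log q ≤ Real.log Z := by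
    rw [← Real.log_rpow hq0]
    apply Real.log_le_log (by positivity)
    have h1 : (q : ℝ) ^ δ = (q : ℝ) ^ (δ / 2) * (q : ℝ) ^ (δ / 2) := by
      rw [← Real.rpow_add hq0]; congr 1; ring
    rw [hXd] at hXZ2
    nlinarith
  have hlogZq : Real.log Z ≤ Real.log q := by
    apply Real.log_le_log (by exact_mod_cast hZ1)
    exact_mod_cast hZq.le
  obtain ⟨hF0, hFs⟩ := hR (Real.log q) b2 (Real.log Z) hlogZ hlogZq
  have hff : κ * F (Real.log q) ≤ c * ff Z := by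
    calc κ * F (Real.log q) ≤ c * (δ / 2 / 8) * F (Real.log q) :=
          mul_le_mul_of_nonneg_right hκc hF0.le
      _ = c * (δ / 2 / 8 * F (Real.log q)) := by ring
      _ ≤ c * F (Real.log Z) := mul_le_mul_of_nonneg_left hFs hc.le
      _ = c * ff Z := rfl
  have hF4 : κ * F (Real.log q) ≤ X / 4 := by
    have h1 : κ * F (Real.log q) ≤ 1 * F (Real.log q) := mul_le_mul_of_nonneg_right hκ1 hF0.le
    linarith
  have hgen : ∀ (z Nz Lz : ℕ), (Z : ℤ) < z → z ≤ Nz + Lz → Nz + Lz ≤ q →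
      (∀ h : ℤ, |(h : ℝ)| ≤ c * ff Z →
        ∃ p : ℕ, p.Prime ∧ (p : ℝ) ≤ (Z : ℝ) ^ (1 / 10 : ℝ) ∧ (p : ℤ) ∣ u * (z : ℤ) + h) →
      ∀ p : ℕ, p.Prime → p ≡ z [MOD q] → κ * (q * F (Real.log q)) < p := by
    intro z Nz Lz hz hz1 hz2 hp p hpp hpz
    have hzR : (Z : ℝ) < z := by exact_mod_cast hz
    have hX110 : (q : ℝ) ^ (δ / 10) = X ^ (1 / 10 : ℝ) := by
      rw [hXd, ← Real.rpow_mul hq0.le]; congr 1; ring
    have h5 : X ^ (1 / 10 : ℝ) ≤ X / 4 := by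
      have h4 : X ^ (1 / 10 : ℝ) ≤ Real.sqrt X := by
        rw [Real.sqrt_eq_rpow]
        exact Real.rpow_le_rpow_of_exponent_le (by linarith) (by norm_num)
      have h6 : Real.sqrt X ≤ X / 4 := by
        rw [Real.sqrt_le_left (by linarith)]
        nlinarith
      linarith
    have h3 := least_of' q hqp δ (κ * F (Real.log q)) hδ0 z Nz Lz u hz1 hz2
      (by rw [hX110]; linarith) (by positivity) hu
      (fun m hm => by
        obtain ⟨p', hp1, hp2, hp3⟩ := hp (m - u * z) (by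
          refine le_trans (le_of_eq ?_) (hm.trans hff)
          push_cast
          congr 1
          ring)
        refine ⟨p', hp1, ?_, ?_⟩
        · rw [hX110]
          exact hp2.trans (Real.rpow_le_rpow (Nat.cast_nonneg _) hZX (by norm_num))
        · have e : u * (z : ℤ) + (m - u * z) = m := by ring
          rw [e] at hp3
          exact hp3) p hpp hpz
    calc κ * (q * F (Real.log q)) = q * (κ * F (Real.log q)) := by ring
      _ < p := h3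
  refine ⟨x, y, by omega, by omega, by omega, by omega, ?_, ?_⟩
  · rw [hx, hy] at hva
    simpa using hva
  · rintro p hp (hpm | hpm)
    · refine hgen x N L (by omega) (by omega) hNL (fun h hh => ?_) p hp hpm
      have h9 := hvp 0 h hh
      beta_reduce at h9
      rwa [hx] at h9
    · refine hgen y M K (by omega) (by omega) hMK (fun h hh => ?_) p hp hpm
      have h9 := hvp 1 h hh
      beta_reduce at h9
      rwa [hy] at h9

end Pool.Agent.helper825_CS
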