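import Pool.Agent.helper825_CS.Inv
import Pool.Agent.helper825_SB.Real
import Pool.Agent.helper825_SB.Main

set_option autoImplicit false

/-! # Record gaps around a number and its inverse modulo a prime -/

namespace Pool.Agent.helper825_CS

open Finset Filter
open Pool.Agent.helper391_DG (F F_scale)
open Pool.Agent.helper825_SB (Equi gen0S)
open Pool.Agent.H256R2.SC (ff)

open scoped Classical

theorem coord : ∃ c : ℝ, 0 < c ∧ ∃ Z₀ : ℝ, ∀ Z : ℕ, Z₀ ≤ Z → ∀ (𝒮 : Finset (Fin 2 → ℤ)) (N₀ : ℝ),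
    Equi 2 Z 𝒮 N₀ → ∃ x ∈ 𝒮, ∀ j : Fin 2, ∀ h : ℤ, |(h : ℝ)| ≤ c * ff Z →
      ∃ p : ℕ, p.Prime ∧ (p : ℝ) ≤ (Z : ℝ) ^ (1 / 10 : ℝ) ∧ (p : ℤ) ∣ x j + h := by
  apply gen0S (ι := Fin 2) 2 (fun j p x => x j) (fun j x => x j) (fun _ _ _ => rfl) (fun _ => 0)
    (fun _ => 1) (fun _ => rfl) (fun _ => by simp) 1 (1 / 2) (by norm_num) (by norm_num) (by norm_num)
  · intro p hp j r _
    have : NeZero p := ⟨hp.ne_zero⟩
    have h1 : Nat.card {x : Fin 2 → ZMod p // x j = r} = p := by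
      have e : {x : Fin 2 → ZMod p // x j = r} ≃ ZMod p :=
        { toFun := fun x => x.1 (1 - j)
          invFun := fun y => ⟨fun i => if i = j then r else y, by simp⟩
          left_inv := by
            rintro ⟨x, hx⟩
            apply Subtype.ext
            funext i
            show (if i = j then r else x (1 - j)) = x i
            split_ifs with hi
            · rw [hi, hx]
            · congr 1
              fin_cases i <;> fin_cases j <;> simp_all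
          right_inv := by
            intro y
            show (if (1 - j) = j then r else y) = y
            rw [if_neg]
            fin_cases j <;> simp }
      rw [Nat.card_congr e, Nat.card_zmod]
    rw [h1]
    have : (p : ℝ) * p - (p : ℝ) ^ 2 = 0 := by ring
    rw [this, abs_zero]
    positivity
  · intro p hp i j hij r s _ _
    have : NeZero p := ⟨hp.ne_zero⟩
    have h1 : Nat.card {x : Fin 2 → ZMod p // x i = r ∧ x j = s} ≤ 1 := by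
      rw [Finite.card_le_one_iff_subsingleton]
      refine ⟨fun x y => ?_⟩
      apply Subtype.ext
      funext k
      have hk : k = i ∨ k = j := by
        fin_cases i <;> fin_cases j <;> fin_cases k <;> simp_all
      rcases hk with rfl | rfl
      · rw [x.2.1, y.2.1]
      · rw [x.2.2, y.2.2]
    have h2 : (Nat.card {x : Fin 2 → ZMod p // x i = r ∧ x j = s} : ℝ) ≤ 1 := by exact_mod_cast h1
    have h3 : (0 : ℝ) ≤ (p : ℝ) ^ 2 := by positivity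
    calc (p : ℝ) ^ 2 * (Nat.card {x : Fin 2 → ZMod p // x i = r ∧ x j = s} : ℝ) ≤ (p : ℝ) ^ 2 * 1 :=
          mul_le_mul_of_nonneg_left h2 h3
      _ = 1 * (p : ℝ) ^ 2 := by ring

theorem equi_Hyp (ε δ : ℝ) (hδ0 : 0 < δ) (hδε : 5 * δ ≤ ε) (q : ℕ) [Fact q.Prime] (Z : ℕ) (hZ1 : 1 ≤ Z)
    (hZ : (Z : ℝ) ≤ (q : ℝ) ^ δ) (hZq : Z < q)
    (hE : 2 * (2 + Real.log q) ^ 2 + 3 ≤ (q : ℝ) ^ (ε / 2) / 4)
    (a : ZMod q) (ha : a ≠ 0) (N L M K : ℤ) (hL0 : 0 ≤ L) (hL : L ≤ q) (hK0 : 0 ≤ K) (hK : K ≤ q)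
    (hLK : (q : ℝ) ^ (3 / 2 + ε) ≤ 4 * ((L : ℝ) * K)) : Equi 2 Z (Hyp a N L M K) ((L : ℝ) * K / q) := by
  have hqp : q.Prime := Fact.out
  have hq1 : (1 : ℝ) ≤ q := by exact_mod_cast hqp.one_lt.le
  have hq0 : (0 : ℝ) < q := by linarith
  have hlq : 0 ≤ Real.log q := Real.log_nonneg hq1
  have hN : (q : ℝ) ^ (1 / 2 + ε) / 4 ≤ (L : ℝ) * K / q := by
    rw [le_div_iff₀ hq0]
    have e : (q : ℝ) ^ (3 / 2 + ε) = (q : ℝ) ^ (1 / 2 + ε) * q := by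
      rw [show (3 / 2 + ε : ℝ) = (1 / 2 + ε) + 1 by ring, Real.rpow_add hq0, Real.rpow_one]
    rw [e] at hLK
    linarith
  have hN0 : 0 < (L : ℝ) * K / q := lt_of_lt_of_le (by positivity) hN
  refine ⟨hN0, fun m hm hmZ c => ?_⟩
  have hmR : (0 : ℝ) < m := by exact_mod_cast hm
  have hmZ' : m ≤ Z := by exact_mod_cast hmZ
  refine (Hyp_count a ha N L M K hL0 hL hK0 hK m hm (by omega) c).trans ?_
  have hZR : (1 : ℝ) ≤ Z := by exact_mod_cast hZ1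
  have hZ0 : (0 : ℝ) < Z := by linarith
  have h1 : (q : ℝ) ^ (-(ε / 2)) ≤ 1 / (m : ℝ) ^ 2 * (Z : ℝ) ^ (-(1 / 2) : ℝ) := by
    have h2 : 1 / (m : ℝ) ^ 2 ≥ (Z : ℝ) ^ (-2 : ℝ) := by
      rw [Real.rpow_neg hZ0.le, Real.rpow_two, ← one_div]
      exact one_div_le_one_div_of_le (by positivity) (pow_le_pow_left₀ hmR.le hmZ 2)
    have h3 : (Z : ℝ) ^ (-2 : ℝ) * (Z : ℝ) ^ (-(1 / 2) : ℝ) ≤ 1 / (m : ℝ) ^ 2 * (Z : ℝ) ^ (-(1 / 2) : ℝ) :=
      mul_le_mul_of_nonneg_right h2 (by positivity)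
    refine le_trans ?_ h3
    rw [← Real.rpow_add hZ0]
    calc (q : ℝ) ^ (-(ε / 2)) ≤ (q : ℝ) ^ (δ * (-2 + -(1 / 2))) := by
          apply Real.rpow_le_rpow_of_exponent_le hq1
          linarith
      _ = ((q : ℝ) ^ δ) ^ ((-2 : ℝ) + -(1 / 2)) := by rw [← Real.rpow_mul hq0.le]
      _ ≤ (Z : ℝ) ^ ((-2 : ℝ) + -(1 / 2)) :=
          Real.rpow_le_rpow_of_nonpos hZ0 hZ (by norm_num)
  have h4 : (q : ℝ) ^ (1 / 2 + ε) / 4 * (q : ℝ) ^ (-(ε / 2)) ≤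
      (L : ℝ) * K / q * (1 / (m : ℝ) ^ 2 * (Z : ℝ) ^ (-(1 / 2) : ℝ)) :=
    mul_le_mul hN h1 (by positivity) hN0.le
  have h5 : (q : ℝ) ^ (1 / 2 + ε) / 4 * (q : ℝ) ^ (-(ε / 2)) =
      Real.sqrt q * ((q : ℝ) ^ (ε / 2) / 4) := by
    have e : (q : ℝ) ^ (1 / 2 + ε) * (q : ℝ) ^ (-(ε / 2)) = Real.sqrt q * (q : ℝ) ^ (ε / 2) := by
      rw [Real.sqrt_eq_rpow, ← Real.rpow_add hq0, ← Real.rpow_add hq0]; congr 1; ring
    calc (q : ℝ) ^ (1 / 2 + ε) / 4 * (q : ℝ) ^ (-(ε / 2)) =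
          (q : ℝ) ^ (1 / 2 + ε) * (q : ℝ) ^ (-(ε / 2)) / 4 := by ring
      _ = _ := by rw [e]; ring
  have h6 : 2 * Real.sqrt q * (2 + Real.log q) * (1 + Real.log q) + 3 ≤
      Real.sqrt q * ((q : ℝ) ^ (ε / 2) / 4) := by
    have h7 : 1 ≤ Real.sqrt q := Real.one_le_sqrt.2 hq1
    have h8 : Real.sqrt q * (2 * (2 + Real.log q) ^ 2 + 3) ≤
        Real.sqrt q * ((q : ℝ) ^ (ε / 2) / 4) :=
      mul_le_mul_of_nonneg_left hE (by positivity)
    have h9 : (2 + Real.log q) * (1 + Real.log q) ≤ (2 + Real.log q) ^ 2 := by nlinarith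
    have h10 : Real.sqrt q * ((2 + Real.log q) * (1 + Real.log q)) ≤
        Real.sqrt q * (2 + Real.log q) ^ 2 := mul_le_mul_of_nonneg_left h9 (by positivity)
    linarith
  refine h6.trans ?_
  rw [← h5]
  refine h4.trans (le_of_eq ?_)
  ring

theorem inv_gaps (ε : ℝ) (hε : 0 < ε) : ∃ κ : ℝ, 0 < κ ∧ ∃ q₀ : ℕ, ∀ q : ℕ, q₀ ≤ q → q.Prime →
    ∀ a : ZMod q, a ≠ 0 → ∀ N L M K : ℕ, L ≤ q → K ≤ q → (q : ℝ) ^ (3 / 2 + ε) ≤ (L : ℝ) * K →
    ∃ x y : ℕ, N < x ∧ x ≤ N + L ∧ M < y ∧ y ≤ M + K ∧ (x : ZMod q) * (y : ZMod q) = a ∧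
      ∀ m : ℕ, (|(m : ℝ) - x| ≤ κ * F (Real.log q) ∨ |(m : ℝ) - y| ≤ κ * F (Real.log q)) →
        ¬ m.Prime ∧ ∃ p : ℕ, p.Prime ∧ (p : ℝ) ≤ (q : ℝ) ^ ε ∧ p ∣ m := by
  obtain ⟨c, hc, Z₀, hmain⟩ := coord
  obtain ⟨δ, hδd⟩ : ∃ δ : ℝ, δ = min ε 1 / 5 := ⟨_, rfl⟩
  have hm0 : 0 < min ε 1 := lt_min hε one_pos
  have hδ0 : 0 < δ := by rw [hδd]; positivity
  have hδ1 : δ ≤ 1 / 5 := by rw [hδd]; linarith [min_le_right ε 1]
  have hδε : 5 * δ ≤ ε := by rw [hδd]; linarith [min_le_left ε 1]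
  obtain ⟨R, hR⟩ := F_scale (δ / 2) (by positivity)
  obtain ⟨κ, hκd⟩ : ∃ κ : ℝ, κ = min 1 (c * (δ / 2 / 8)) := ⟨_, rfl⟩
  have hκ0 : 0 < κ := by rw [hκd]; exact lt_min one_pos (by positivity)
  have hκ1 : κ ≤ 1 := by rw [hκd]; exact min_le_left _ _
  have hκc : κ ≤ c * (δ / 2 / 8) := by rw [hκd]; exact min_le_right _ _
  have hcast : Tendsto (fun q : ℕ => (q : ℝ)) atTop atTop := tendsto_natCast_atTop_atTop
  have hlogq : Tendsto (fun q : ℕ => Real.log (q : ℝ)) atTop atTop :=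
    Real.tendsto_log_atTop.comp hcast
  have hX : Tendsto (fun q : ℕ => (q : ℝ) ^ δ) atTop atTop := (tendsto_rpow_atTop hδ0).comp hcast
  have hX2 : Tendsto (fun q : ℕ => (q : ℝ) ^ (δ / 2)) atTop atTop :=
    (tendsto_rpow_atTop (by positivity)).comp hcast
  have hlog4 : ∀ᶠ q : ℕ in atTop, (Real.log q) ^ 4 ≤ (q : ℝ) ^ δ / 4 := by
    have h1 := (isLittleO_log_rpow_rpow_atTop 4 hδ0).def (show (0 : ℝ) < 1 / 4 by norm_num)
    filter_upwards [hcast.eventually h1, eventually_ge_atTop 1] with q h2 h3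
    have h4 : (Real.log q) ^ (4 : ℝ) = (Real.log q) ^ 4 := by
      rw [show (4 : ℝ) = ((4 : ℕ) : ℝ) by norm_num, Real.rpow_natCast]
    rw [h4, Real.norm_eq_abs, Real.norm_eq_abs,
      abs_of_nonneg (show (0 : ℝ) ≤ (q : ℝ) ^ δ by positivity)] at h2
    have := le_abs_self ((Real.log q) ^ 4)
    linarith
  have hlog2 : ∀ᶠ q : ℕ in atTop, 2 * (2 + Real.log q) ^ 2 + 3 ≤ (q : ℝ) ^ (ε / 2) / 4 := by
    have h1 := (isLittleO_log_rpow_rpow_atTop 4 (show 0 < ε / 2 by positivity)).def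
      (show (0 : ℝ) < 1 / 4 by norm_num)
    filter_upwards [hcast.eventually h1, eventually_ge_atTop 1, hlogq.eventually_ge_atTop 4] with q h2 h3 h5
    have h4 : (Real.log q) ^ (4 : ℝ) = (Real.log q) ^ 4 := by
      rw [show (4 : ℝ) = ((4 : ℕ) : ℝ) by norm_num, Real.rpow_natCast]
    rw [h4, Real.norm_eq_abs, Real.norm_eq_abs,
      abs_of_nonneg (show (0 : ℝ) ≤ (q : ℝ) ^ (ε / 2) by positivity)] at h2
    have h6 := le_abs_self ((Real.log q) ^ 4)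
    have h7 : 2 * (2 + Real.log q) ^ 2 + 3 ≤ (Real.log q) ^ 4 := by
      have h8 : (16 : ℝ) ≤ (Real.log q) ^ 2 := by nlinarith
      have h9 : 16 * (Real.log q) ^ 2 ≤ (Real.log q) ^ 2 * (Real.log q) ^ 2 :=
        mul_le_mul_of_nonneg_right h8 (by positivity)
      have h10 : (Real.log q) ^ 2 * (Real.log q) ^ 2 = (Real.log q) ^ 4 := by ring
      rw [← h10]
      nlinarith
    linarith
  obtain ⟨q₀, hq₀⟩ := eventually_atTop.1 ((((hX.eventually_ge_atTop (max Z₀ 1 * 2 + 16)).and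
    (hX2.eventually_ge_atTop 2)).and
    ((hlogq.eventually_ge_atTop R).and (hlogq.eventually Pool.Agent.helper825_SB.F_le))).and
      ((hlog4.and hlog2).and (eventually_ge_atTop 2)))
  refine ⟨κ, hκ0, q₀, fun q hq hqp a ha N L M K hL hK hLK => ?_⟩
  obtain ⟨⟨⟨b1, b1'⟩, b2, b3⟩, ⟨b4, b5⟩, b6⟩ := hq₀ q hq
  have : Fact q.Prime := ⟨hqp⟩
  have hq2 : (2 : ℝ) ≤ q := by exact_mod_cast b6
  have hq1 : (1 : ℝ) ≤ q := by linarith
  have hq0 : (0 : ℝ) < q := by linarith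
  obtain ⟨X, hXd⟩ : ∃ X : ℝ, X = (q : ℝ) ^ δ := ⟨_, rfl⟩
  rw [← hXd] at b1 b4
  have hZ01 : (1 : ℝ) ≤ max Z₀ 1 := le_max_right _ _
  have hX16 : 16 ≤ X := by linarith
  obtain ⟨Z, hZd⟩ : ∃ Z : ℕ, Z = ⌊X⌋₊ := ⟨_, rfl⟩
  have hZX : (Z : ℝ) ≤ X := by rw [hZd]; exact Nat.floor_le (by linarith)
  have hXZ : X < Z + 1 := by rw [hZd]; exact Nat.lt_floor_add_one X
  have hXZ2 : X / 2 ≤ Z := by linarith
  have hZ0' : Z₀ ≤ Z := by
    have := le_max_left Z₀ 1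
    linarith
  have hZ1 : 1 ≤ Z := by
    have : (1 : ℝ) ≤ Z := by linarith
    exact_mod_cast this
  have hXX : X * X ≤ (q : ℝ) ^ (1 / 2 + ε) := by
    rw [hXd, ← Real.rpow_add hq0]
    exact Real.rpow_le_rpow_of_exponent_le hq1 (by linarith)
  have hXq : X * X ≤ q := by
    rw [hXd, ← Real.rpow_add hq0]
    calc (q : ℝ) ^ (δ + δ) ≤ (q : ℝ) ^ (1 : ℝ) := Real.rpow_le_rpow_of_exponent_le hq1 (by linarith)
      _ = q := Real.rpow_one _
  have hZq : Z < q := by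
    have : (Z : ℝ) < q := by nlinarith
    exact_mod_cast this
  have e74 : (q : ℝ) ^ (3 / 2 + ε) = (q : ℝ) ^ (1 / 2 + ε) * q := by
    rw [show (3 / 2 + ε : ℝ) = (1 / 2 + ε) + 1 by ring, Real.rpow_add hq0, Real.rpow_one]
  have hLR : (L : ℝ) ≤ q := by exact_mod_cast hL
  have hKR : (K : ℝ) ≤ q := by exact_mod_cast hK
  have hL2 : 2 * Z ≤ L := by
    have h1 : (q : ℝ) ^ (1 / 2 + ε) ≤ L := by
      refine le_of_mul_le_mul_right ?_ hq0
      rw [← e74]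
      exact hLK.trans (mul_le_mul_of_nonneg_left hKR (Nat.cast_nonneg _))
    have h2 : (2 : ℝ) * Z ≤ L := by nlinarith
    exact_mod_cast h2
  have hK2 : 2 * Z ≤ K := by
    have h1 : (q : ℝ) ^ (1 / 2 + ε) ≤ K := by
      refine le_of_mul_le_mul_right ?_ hq0
      rw [← e74]
      refine hLK.trans ?_
      rw [mul_comm]
      exact mul_le_mul_of_nonneg_left hLR (Nat.cast_nonneg _)
    have h2 : (2 : ℝ) * Z ≤ K := by nlinarith
    exact_mod_cast h2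
  obtain ⟨L', hL'⟩ : ∃ L' : ℤ, L' = L - Z := ⟨_, rfl⟩
  obtain ⟨K', hK'⟩ : ∃ K' : ℤ, K' = K - Z := ⟨_, rfl⟩
  have hL'2 : (L : ℝ) ≤ 2 * L' := by
    have : (L : ℤ) ≤ 2 * L' := by omega
    exact_mod_cast this
  have hK'2 : (K : ℝ) ≤ 2 * K' := by
    have : (K : ℤ) ≤ 2 * K' := by omega
    exact_mod_cast this
  have hLK' : (q : ℝ) ^ (3 / 2 + ε) ≤ 4 * ((L' : ℝ) * K') := by
    have h1 : (L : ℝ) * K ≤ (2 * L') * (2 * K') :=
      mul_le_mul hL'2 hK'2 (Nat.cast_nonneg _) (by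
        have : (0 : ℝ) ≤ L := Nat.cast_nonneg _
        linarith)
    linarith
  have hEq := equi_Hyp ε δ hδ0 hδε q Z hZ1 (by rw [← hXd]; exact hZX) hZq b5 a ha (N + Z) L' (M + Z) K'
    (by omega) (by omega) (by omega) (by omega) hLK'
  obtain ⟨v, hv, hvp⟩ := hmain Z hZ0' _ _ hEq
  rw [mem_Hyp] at hv
  obtain ⟨⟨hv0, hv1⟩, hva⟩ := hv
  rw [mem_Ioc] at hv0 hv1
  obtain ⟨x, hx⟩ := Int.eq_ofNat_of_zero_le (show 0 ≤ v 0 by omega)
  obtain ⟨y, hy⟩ := Int.eq_ofNat_of_zero_le (show 0 ≤ v 1 by omega)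
  rw [hx] at hv0
  rw [hy] at hv1
  -- the scale
  have hlogZ : δ / 2 * Real.log q ≤ Real.log Z := by
    rw [← Real.log_rpow hq0]
    apply Real.log_le_log (by positivity)
    have h1 : (q : ℝ) ^ δ = (q : ℝ) ^ (δ / 2) * (q : ℝ) ^ (δ / 2) := by
      rw [← Real.rpow_add hq0]; congr 1; ring
    rw [hXd] at hXZ2
    nlinarith
  have hlogZq : Real.log Z ≤ Real.log q := by
    apply Real.log_le_log (by exact_mod_cast hZ1)
    exact_mod_cast hZq.le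
  obtain ⟨hF0, hFs⟩ := hR (Real.log q) b2 (Real.log Z) hlogZ hlogZq
  have hff : κ * F (Real.log q) ≤ c * ff Z := by
    calc κ * F (Real.log q) ≤ c * (δ / 2 / 8) * F (Real.log q) :=
          mul_le_mul_of_nonneg_right hκc hF0.le
      _ = c * (δ / 2 / 8 * F (Real.log q)) := by ring
      _ ≤ c * F (Real.log Z) := mul_le_mul_of_nonneg_left hFs hc.le
      _ = c * ff Z := rfl
  have hF4 : κ * F (Real.log q) ≤ X / 4 := by
    have h1 : κ * F (Real.log q) ≤ 1 * F (Real.log q) := mul_le_mul_of_nonneg_right hκ1 hF0.le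
    linarith
  have hgen : ∀ (z : ℕ), (Z : ℤ) < z → (∀ h : ℤ, |(h : ℝ)| ≤ c * ff Z →
      ∃ p : ℕ, p.Prime ∧ (p : ℝ) ≤ (Z : ℝ) ^ (1 / 10 : ℝ) ∧ (p : ℤ) ∣ (z : ℤ) + h) →
      ∀ m : ℕ, |(m : ℝ) - z| ≤ κ * F (Real.log q) →
        ¬ m.Prime ∧ ∃ p : ℕ, p.Prime ∧ (p : ℝ) ≤ (q : ℝ) ^ ε ∧ p ∣ m := by
    intro z hz hp m hm
    obtain ⟨p, hp1, hp2, hp3⟩ := hp ((m : ℤ) - z) (by
      push_cast
      exact hm.trans hff)
    have hpm : p ∣ m := by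
      have e : (z : ℤ) + ((m : ℤ) - z) = m := by ring
      rw [e] at hp3
      exact_mod_cast hp3
    have hZR : (1 : ℝ) ≤ Z := by exact_mod_cast hZ1
    refine ⟨fun hmp => ?_, p, hp1, ?_, hpm⟩
    · have h1 : p = m := (Nat.prime_dvd_prime_iff_eq hp1 hmp).1 hpm
      rw [h1] at hp2
      have h3 := (abs_le.1 hm).1
      have hzR : (Z : ℝ) < z := by exact_mod_cast hz
      have h4 : (Z : ℝ) ^ (1 / 10 : ℝ) ≤ Real.sqrt X := by
        rw [Real.sqrt_eq_rpow]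
        calc (Z : ℝ) ^ (1 / 10 : ℝ) ≤ (Z : ℝ) ^ (1 / 2 : ℝ) :=
              Real.rpow_le_rpow_of_exponent_le hZR (by norm_num)
          _ ≤ X ^ (1 / 2 : ℝ) := Real.rpow_le_rpow (by linarith) hZX (by norm_num)
      have h5 : Real.sqrt X ≤ X / 4 := by
        rw [Real.sqrt_le_left (by linarith)]
        nlinarith
      linarith
    · calc (p : ℝ) ≤ (Z : ℝ) ^ (1 / 10 : ℝ) := hp2
        _ ≤ (Z : ℝ) ^ (1 : ℝ) := Real.rpow_le_rpow_of_exponent_le hZR (by norm_num)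
        _ = Z := Real.rpow_one _
        _ ≤ (q : ℝ) ^ δ := by rw [← hXd]; exact hZX
        _ ≤ (q : ℝ) ^ ε := Real.rpow_le_rpow_of_exponent_le hq1 (by linarith)
  refine ⟨x, y, by omega, by omega, by omega, by omega, ?_, ?_⟩
  · rw [hx, hy] at hva
    simpa using hva
  · rintro m (hm | hm)
    · refine hgen x (by omega) (fun h hh => ?_) m hm
      have := hvp 0 h hh
      rwa [hx] at this
    · refine hgen y (by omega) (fun h hh => ?_) m hm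
      have := hvp 1 h hh
      rwa [hy] at this

end Pool.Agent.helper825_CS
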