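import Pool.Agent.helper825_CS.Fourier
import Pool.Agent.helper825_SB.Real
import Pool.Agent.TH915.PW.Crit

set_option autoImplicit false

/-! # Record composite neighbourhoods around the members of sets with small Fourier coefficients -/

namespace Pool.Agent.helper825_CS

open Finset Filter
open Pool.Agent.helper391_DG (F F_scale)
open Pool.Agent.H256R2.SC (ff)

open scoped Classical

theorem core (ε : ℝ) (hε : 0 < ε) (hε1 : ε ≤ 1) : ∃ c : ℝ, 0 < c ∧ ∃ q₀ : ℕ, ∀ q : ℕ, q₀ ≤ q →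
    ∀ [Fact q.Prime], ∀ (C : Finset (ZMod q)) (B : ℝ), 1 ≤ B →
    (∀ t : ZMod q, t ≠ 0 → ‖T C t‖ ≤ B) →
    ∀ N L : ℤ, 0 ≤ N → 0 ≤ L → B * (q : ℝ) ^ (1 + ε) ≤ L * C.card →
    ∀ u w : ℤ, (∀ m : ℕ, 1 ≤ m → (m : ℝ) ≤ (q : ℝ) ^ ε → (m : ℤ) ∣ u * w - 1) →
    ∃ n : ℤ, N < n ∧ n ≤ N + L ∧ c * F (Real.log q) + (q : ℝ) ^ (ε / 10) < n ∧
      ((n : ℤ) : ZMod q) ∈ C ∧
      ∀ m : ℤ, |(m : ℝ) - n * u| ≤ c * F (Real.log q) →
        ∃ p : ℕ, p.Prime ∧ (p : ℝ) ≤ (q : ℝ) ^ (ε / 10) ∧ (p : ℤ) ∣ m := by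
  obtain ⟨κ, hκ, X₀, hcrit⟩ := Pool.Agent.TH915.PW.crit
  obtain ⟨R, hR⟩ := F_scale ε hε
  obtain ⟨c, hc⟩ : ∃ c : ℝ, c = min 1 (κ * (ε / 8)) := ⟨_, rfl⟩
  have hc0 : 0 < c := by rw [hc]; exact lt_min one_pos (by positivity)
  have hc1 : c ≤ 1 := by rw [hc]; exact min_le_left _ _
  have hcκ : c ≤ κ * (ε / 8) := by rw [hc]; exact min_le_right _ _
  have hcast : Tendsto (fun q : ℕ => (q : ℝ)) atTop atTop := tendsto_natCast_atTop_atTop
  have hlogq : Tendsto (fun q : ℕ => Real.log (q : ℝ)) atTop atTop :=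
    Real.tendsto_log_atTop.comp hcast
  have hX : Tendsto (fun q : ℕ => (q : ℝ) ^ ε) atTop atTop := (tendsto_rpow_atTop hε).comp hcast
  have hX2 : Tendsto (fun q : ℕ => (q : ℝ) ^ (2 / 5 * ε)) atTop atTop :=
    (tendsto_rpow_atTop (by positivity)).comp hcast
  have hlog1 : ∀ᶠ q : ℕ in atTop, 16 * (1 + Real.log q) ≤ (q : ℝ) ^ (2 / 5 * ε) := by
    have h1 := (isLittleO_log_rpow_atTop (show 0 < 2 / 5 * ε by positivity)).def
      (show (0 : ℝ) < 1 / 32 by norm_num)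
    filter_upwards [hcast.eventually h1, hX2.eventually_ge_atTop 32] with q h2 h3
    have h4 := le_abs_self (Real.log q)
    rw [Real.norm_eq_abs, Real.norm_eq_abs,
      abs_of_nonneg (show (0 : ℝ) ≤ (q : ℝ) ^ (2 / 5 * ε) by positivity)] at h2
    linarith
  have hlog4 : ∀ᶠ q : ℕ in atTop, (Real.log q) ^ 4 ≤ (q : ℝ) ^ (ε / 2) / 4 := by
    have h1 := (isLittleO_log_rpow_rpow_atTop 4 (show 0 < ε / 2 by positivity)).def
      (show (0 : ℝ) < 1 / 4 by norm_num)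
    filter_upwards [hcast.eventually h1, eventually_ge_atTop 1] with q h2 h3
    have h3' : (1 : ℝ) ≤ q := by exact_mod_cast h3
    have h4 : (Real.log q) ^ (4 : ℝ) = (Real.log q) ^ 4 := by
      rw [show (4 : ℝ) = ((4 : ℕ) : ℝ) by norm_num, Real.rpow_natCast]
    rw [h4, Real.norm_eq_abs, Real.norm_eq_abs,
      abs_of_nonneg (show (0 : ℝ) ≤ (q : ℝ) ^ (ε / 2) by positivity)] at h2
    have := le_abs_self ((Real.log q) ^ 4)
    linarith
  obtain ⟨q₀, hq₀⟩ := eventually_atTop.1 (((hX.eventually_ge_atTop X₀).and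
    ((hlogq.eventually_ge_atTop R).and (hlogq.eventually Pool.Agent.helper825_SB.F_le))).and
      ((hlog1.and hlog4).and (eventually_ge_atTop 2)))
  refine ⟨c, hc0, q₀, fun q hq _ C B hB hT N L hN hL hLC u w huw => ?_⟩
  obtain ⟨⟨b1, b2, b3⟩, ⟨b4, b5⟩, b6⟩ := hq₀ q hq
  have hq2 : (2 : ℝ) ≤ q := by exact_mod_cast b6
  have hq1 : (1 : ℝ) ≤ q := by linarith
  have hq0 : (0 : ℝ) < q := by linarith
  have hlq : 0 ≤ Real.log q := Real.log_nonneg hq1
  obtain ⟨X, hXd⟩ : ∃ X : ℝ, X = (q : ℝ) ^ ε := ⟨_, rfl⟩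
  have hX0 : 0 < X := by rw [hXd]; positivity
  have hX1 : 1 ≤ X := by rw [hXd]; exact Real.one_le_rpow hq1 hε.le
  have hXr : ∀ s : ℝ, X ^ s = (q : ℝ) ^ (s * ε) := by
    intro s; rw [hXd, ← Real.rpow_mul hq0.le, mul_comm]
  obtain ⟨Y, hYd⟩ : ∃ Y : ℝ, Y = (q : ℝ) ^ (2 / 5 * ε) := ⟨_, rfl⟩
  rw [← hYd] at b4
  have hY16 : 16 ≤ Y := by linarith
  have hXY : X = Y * X ^ (3 / 5 : ℝ) := by
    rw [hXr, hYd, hXd, ← Real.rpow_add hq0]; congr 1; ring
  have hX35 : 1 ≤ X ^ (3 / 5 : ℝ) := Real.one_le_rpow hX1 (by norm_num)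
  have hYX : Y ≤ X := by
    rw [hXY]
    nlinarith
  obtain ⟨hffX, hcr⟩ := hcrit X (by rw [hXd]; exact b1)
  -- the interval
  obtain ⟨N', hN'⟩ : ∃ N' : ℤ, N' = N + L / 2 := ⟨_, rfl⟩
  obtain ⟨L', hL'⟩ : ∃ L' : ℤ, L' = L - L / 2 := ⟨_, rfl⟩
  have hNL : N' + L' = N + L := by rw [hN', hL']; ring
  have hL'0 : 0 ≤ L' := by omega
  have hL'2 : L ≤ 2 * L' := by omega
  have hL'R : (L : ℝ) / 2 ≤ L' := by
    have : (L : ℝ) ≤ 2 * L' := by exact_mod_cast hL'2
    linarith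
  obtain ⟨M, hM⟩ : ∃ M : ℝ, M = (L' : ℝ) * C.card / q := ⟨_, rfl⟩
  have hMlow : B * X / 2 ≤ M := by
    rw [hM, le_div_iff₀ hq0]
    have h1 : B * (q : ℝ) ^ (1 + ε) = B * X * q := by
      rw [hXd, Real.rpow_add hq0, Real.rpow_one]; ring
    rw [h1] at hLC
    have h2 : (L : ℝ) / 2 * C.card ≤ L' * C.card := mul_le_mul_of_nonneg_right hL'R (Nat.cast_nonneg _)
    nlinarith
  obtain ⟨E, hE⟩ : ∃ E : ℝ, E = B * (1 + Real.log q) + 1 := ⟨_, rfl⟩
  have hE8 : E ≤ B * Y / 8 := by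
    rw [hE]
    have h1 : 1 ≤ B * (1 + Real.log q) := by nlinarith
    have h2 : B * (16 * (1 + Real.log q)) ≤ B * Y := by gcongr
    nlinarith
  have hE0 : 0 ≤ E := by rw [hE]; positivity
  obtain ⟨s, hs⟩ : ∃ s : Finset ℤ, s = (Ioc N' (N' + L')).filter (fun n : ℤ => ((n : ℤ) : ZMod q) ∈ C) :=
    ⟨_, rfl⟩
  have hqn : 1 < q := by omega
  have hscard : |(s.card : ℝ) - M| ≤ E := by
    have h1 := interval_count C B (by linarith) hT N' L' hL'0 1 one_pos hqn 0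
    have h2 : (Ioc N' (N' + L')).filter (fun n : ℤ => ((n : ℤ) : ZMod q) ∈ C ∧ ((1 : ℕ) : ℤ) ∣ n - 0) =
        s := by
      rw [hs]
      apply Finset.filter_congr
      intro n _
      simp
    rw [h2] at h1
    rw [hM, hE]
    simpa using h1
  have hs1 := abs_le.1 hscard
  have hsl : B * X / 4 ≤ s.card := by
    have h1 : B * Y / 8 ≤ B * X / 8 := by gcongr
    have h2 : 0 ≤ B * X := by positivity
    linarith
  have hspos : (0 : ℝ) < s.card := lt_of_lt_of_le (by positivity) hsl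
  have hsne : s.Nonempty := by
    rw [← Finset.card_pos]
    exact_mod_cast hspos
  have hkey : 2 * E ≤ s.card * X ^ (-(3 / 5) : ℝ) := by
    have h1 : B * X / 4 * X ^ (-(3 / 5) : ℝ) = B * Y / 4 := by
      rw [hXY, Real.rpow_neg (by positivity)]
      have h2 : (Y * X ^ (3 / 5 : ℝ)) = X := hXY.symm
      rw [h2]
      have h3 : X ^ (3 / 5 : ℝ) ≠ 0 := by positivity
      have h4 : X = Y * X ^ (3 / 5 : ℝ) := hXY
      calc B * X / 4 * (X ^ (3 / 5 : ℝ))⁻¹ = B * (Y * X ^ (3 / 5 : ℝ)) / 4 * (X ^ (3 / 5 : ℝ))⁻¹ := by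
            rw [← h4]
        _ = B * Y / 4 := by field_simp
    calc 2 * E ≤ B * Y / 4 := by linarith
      _ = B * X / 4 * X ^ (-(3 / 5) : ℝ) := h1.symm
      _ ≤ s.card * X ^ (-(3 / 5) : ℝ) := by gcongr
  obtain ⟨n, hn, hnp⟩ := hcr ℤ s (fun n => n * u) hsne (by
    intro m hm1 hmX r
    have hmX' : (m : ℝ) ≤ X := hmX.trans (by
      calc X ^ (2 / 5 : ℝ) ≤ X ^ (1 : ℝ) := Real.rpow_le_rpow_of_exponent_le hX1 (by norm_num)
        _ = X := Real.rpow_one X)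
    have hmq : m < q := by
      have h1 : (m : ℝ) ≤ Y := by
        rw [hXr] at hmX
        rw [hYd]
        exact hmX
      have h2 : Y * 2 ≤ X := by
        have h3 : (2 : ℝ) ≤ X ^ (3 / 5 : ℝ) := by
          have h4 : Y ≤ X ^ (3 / 5 : ℝ) := by
            rw [hYd, hXr]
            apply Real.rpow_le_rpow_of_exponent_le hq1
            nlinarith
          linarith
        calc Y * 2 ≤ Y * X ^ (3 / 5 : ℝ) := by gcongr
          _ = X := hXY.symm
      have h5 : X ≤ q := by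
        rw [hXd]
        calc (q : ℝ) ^ ε ≤ (q : ℝ) ^ (1 : ℝ) := Real.rpow_le_rpow_of_exponent_le hq1 hε1
          _ = q := Real.rpow_one _
      have h6 : (m : ℝ) < q := by linarith
      exact_mod_cast h6
    have hdv := huw m hm1 (by rw [← hXd]; exact hmX')
    have h1 := interval_count C B (by linarith) hT N' L' hL'0 m hm1 hmq (r * w)
    have h2 : (Ioc N' (N' + L')).filter (fun n : ℤ => ((n : ℤ) : ZMod q) ∈ C ∧ (m : ℤ) ∣ n - r * w) =
        s.filter (fun i => (m : ℤ) ∣ i * u - r) := by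
      rw [hs, Finset.filter_filter]
      apply Finset.filter_congr
      intro i _
      constructor
      · rintro ⟨h3, h4⟩
        refine ⟨h3, ?_⟩
        have e : i * u - r = (i - r * w) * u + r * (u * w - 1) := by ring
        rw [e]
        exact dvd_add (h4.mul_right _) (hdv.mul_left _)
      · rintro ⟨h3, h4⟩
        refine ⟨h3, ?_⟩
        have e : i - r * w = (i * u - r) * w - i * (u * w - 1) := by ring
        rw [e]
        exact dvd_sub (h4.mul_right _) (hdv.mul_left _)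
    rw [h2, ← hM, ← hE] at h1
    have hmR : (1 : ℝ) ≤ m := by exact_mod_cast hm1
    have h3 : |M / m - s.card / m| ≤ E := by
      have e : M / m - s.card / m = -((s.card - M) / m) := by ring
      rw [e, abs_neg, abs_div, abs_of_pos (show (0 : ℝ) < m by linarith), div_le_iff₀ (by linarith)]
      nlinarith
    have h4 := abs_le.1 h1
    have h5 := abs_le.1 h3
    rw [abs_le]
    constructor <;> linarith [h4.1, h4.2, h5.1, h5.2])
  rw [hs, mem_filter, mem_Ioc, hNL] at hn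
  obtain ⟨⟨hn1, hn2⟩, hn3⟩ := hn
  refine ⟨n, by omega, hn2, ?_, hn3, ?_⟩
  · have hLX : X ≤ L := by
      have h1 : B * (q : ℝ) ^ (1 + ε) = B * X * q := by
        rw [hXd, Real.rpow_add hq0, Real.rpow_one]; ring
      rw [h1] at hLC
      have hCq : (C.card : ℝ) ≤ q := by
        have : C.card ≤ q := by
          have := card_le_univ C
          rwa [ZMod.card] at this
        exact_mod_cast this
      have hLR : (0 : ℝ) ≤ L := by exact_mod_cast hL
      have h2 : B * X * q ≤ L * q := hLC.trans (by gcongr)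
      have h3 : B * X ≤ L := le_of_mul_le_mul_right h2 hq0
      nlinarith
    have hnL : (L : ℝ) / 2 ≤ n := by
      have h1 : L ≤ 2 * n := by omega
      have h2 : (L : ℝ) ≤ 2 * n := by exact_mod_cast h1
      linarith
    have hV : (q : ℝ) ^ (ε / 2) * (q : ℝ) ^ (ε / 2) = X := by
      rw [← Real.rpow_add hq0, hXd]; congr 1; ring
    have hV2 : (q : ℝ) ^ (ε / 10) * Y = (q : ℝ) ^ (ε / 2) := by
      rw [hYd, ← Real.rpow_add hq0]; congr 1; ring
    have hV3 : (1 : ℝ) ≤ (q : ℝ) ^ (ε / 10) := Real.one_le_rpow hq1 (by positivity)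
    obtain ⟨V, hVd⟩ : ∃ V : ℝ, V = (q : ℝ) ^ (ε / 2) := ⟨_, rfl⟩
    obtain ⟨V', hVd'⟩ : ∃ V' : ℝ, V' = (q : ℝ) ^ (ε / 10) := ⟨_, rfl⟩
    rw [← hVd] at hV hV2 b5
    rw [← hVd'] at hV2 hV3 ⊢
    have h3 : c * F (Real.log q) ≤ V / 4 := by
      obtain ⟨f1, -⟩ := hR (Real.log q) b2 (Real.log q) (by nlinarith) le_rfl
      calc c * F (Real.log q) ≤ 1 * F (Real.log q) := by gcongr
        _ = F (Real.log q) := one_mul _
        _ ≤ (Real.log q) ^ 4 := b3
        _ ≤ V / 4 := b5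
    have h4 : V' * 16 ≤ V := by rw [← hV2]; gcongr
    nlinarith
  · intro m hm
    obtain ⟨p, hp1, hp2, hp3⟩ := hnp m (by
      have hlX : Real.log X = ε * Real.log q := by rw [hXd, Real.log_rpow hq0]
      obtain ⟨f1, f2⟩ := hR (Real.log q) b2 (Real.log X) (by rw [hlX]) (by rw [hlX]; nlinarith)
      have hff : ff X = F (Real.log X) := rfl
      push_cast
      have h1 : c * F (Real.log q) ≤ κ * ff X := by
        rw [hff]
        calc c * F (Real.log q) ≤ κ * (ε / 8) * F (Real.log q) := by gcongr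
          _ = κ * (ε / 8 * F (Real.log q)) := by ring
          _ ≤ κ * F (Real.log X) := by gcongr
      linarith)
    refine ⟨p, hp1, ?_, hp3⟩
    rw [hXr] at hp2
    convert hp2 using 2
    ring

end Pool.Agent.helper825_CS
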