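import Mathlib

set_option autoImplicit false

/-! # Cosets of subgroups of `(ℤ/q)ˣ` in arithmetic progressions -/

namespace Pool.Agent.helper825_CS

open Finset

open scoped Classical

section

variable {q : ℕ} [Fact q.Prime]

theorem norm_psi (x : ZMod q) : ‖(ZMod.stdAddChar : AddChar (ZMod q) ℂ) x‖ = 1 := AddChar.norm_apply _ _

theorem sum_psi (b : ZMod q) : ∑ t : ZMod q, (ZMod.stdAddChar : AddChar (ZMod q) ℂ) (t * b) = if b = 0 then (q : ℂ) else 0 := by
  have h := AddChar.sum_mulShift (R := ZMod q) b (ZMod.isPrimitive_stdAddChar q)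
  rw [h, ZMod.card]
  split_ifs <;> simp

/-- the exponential sum over the coset `g H` -/
noncomputable def S (H : Finset (ZMod q)ˣ) (g : (ZMod q)ˣ) (t : ZMod q) : ℂ :=
  ∑ h ∈ H, (ZMod.stdAddChar : AddChar (ZMod q) ℂ) (t * ((g * h : (ZMod q)ˣ) : ZMod q))

theorem parseval (H : Finset (ZMod q)ˣ) (g : (ZMod q)ˣ) :
    ∑ t : ZMod q, ‖S H g t‖ ^ 2 = (q : ℝ) * H.card := by
  have h1 : ∀ t : ZMod q, ((‖S H g t‖ ^ 2 : ℝ) : ℂ) =
      ∑ h ∈ H, ∑ h' ∈ H, (ZMod.stdAddChar : AddChar (ZMod q) ℂ) (t * (((g * h : (ZMod q)ˣ) : ZMod q) - ((g * h' : (ZMod q)ˣ) : ZMod q))) := by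
    intro t
    have h2 : ((‖S H g t‖ ^ 2 : ℝ) : ℂ) = S H g t * (starRingEnd ℂ) (S H g t) := by
      rw [Complex.mul_conj, Complex.normSq_eq_norm_sq]
    rw [h2]
    unfold S
    rw [map_sum, sum_mul_sum]
    refine sum_congr rfl fun h _ => sum_congr rfl fun h' _ => ?_
    rw [← AddChar.map_neg_eq_conj, ← AddChar.map_add_eq_mul]
    congr 1
    ring
  have h3 : ((∑ t : ZMod q, ‖S H g t‖ ^ 2 : ℝ) : ℂ) = ((q : ℝ) * H.card : ℝ) := by
    push_cast
    have h4 : ∀ t : ZMod q, (‖S H g t‖ : ℂ) ^ 2 =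
      ∑ h ∈ H, ∑ h' ∈ H, (ZMod.stdAddChar : AddChar (ZMod q) ℂ) (t * (((g * h : (ZMod q)ˣ) : ZMod q) - ((g * h' : (ZMod q)ˣ) : ZMod q))) := by
      intro t
      rw [← h1 t]
      push_cast
      rfl
    simp_rw [h4]
    rw [sum_comm]
    have h5 : ∀ h ∈ H, ∑ t : ZMod q, ∑ h' ∈ H,
        (ZMod.stdAddChar : AddChar (ZMod q) ℂ) (t * (((g * h : (ZMod q)ˣ) : ZMod q) - ((g * h' : (ZMod q)ˣ) : ZMod q))) = (q : ℂ) := by
      intro h hh
      rw [sum_comm]
      simp_rw [sum_psi]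
      rw [Finset.sum_eq_single h]
      · simp
      · intro h' _ hne
        rw [if_neg]
        intro h0
        rw [sub_eq_zero] at h0
        exact hne (mul_left_cancel (Units.ext h0)).symm
      · intro hn
        exact absurd hh hn
    rw [sum_congr rfl h5, sum_const, nsmul_eq_mul]
    ring
  exact_mod_cast h3

theorem S_bound (H : Finset (ZMod q)ˣ) (g : (ZMod q)ˣ) (hmul : ∀ u ∈ H, ∀ h ∈ H, u * h ∈ H)
    (hinv : ∀ u ∈ H, u⁻¹ ∈ H) (hne : H.Nonempty) (t : ZMod q) (ht : t ≠ 0) :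
    ‖S H g t‖ ≤ Real.sqrt q := by
  have h1 : ∀ u ∈ H, S H g (t * (u : ZMod q)) = S H g t := by
    intro u hu
    unfold S
    refine Finset.sum_bij' (fun h _ => u * h) (fun h _ => u⁻¹ * h) ?_ ?_ ?_ ?_ ?_
    · intro h hh; exact hmul u hu h hh
    · intro h hh; exact hmul _ (hinv u hu) h hh
    · intro h _; simp
    · intro h _; simp
    · intro h _
      congr 1
      push_cast
      ring
  have h2 : (H.card : ℝ) * ‖S H g t‖ ^ 2 ≤ (q : ℝ) * H.card := by
    rw [← parseval H g]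
    have h3 : (H.card : ℝ) * ‖S H g t‖ ^ 2 = ∑ u ∈ H, ‖S H g (t * (u : ZMod q))‖ ^ 2 := by
      rw [sum_congr rfl (fun u hu => by rw [h1 u hu]), sum_const, nsmul_eq_mul]
    rw [h3]
    have h4 : ∑ u ∈ H, ‖S H g (t * (u : ZMod q))‖ ^ 2 =
        ∑ x ∈ H.image (fun u : (ZMod q)ˣ => t * (u : ZMod q)), ‖S H g x‖ ^ 2 := by
      rw [sum_image]
      intro u _ u' _ h
      exact Units.ext (mul_left_cancel₀ ht h)
    rw [h4]
    exact sum_le_sum_of_subset_of_nonneg (subset_univ _) (fun _ _ _ => by positivity)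
  have hc : (0 : ℝ) < H.card := by exact_mod_cast hne.card_pos
  apply Real.le_sqrt_of_sq_le
  rw [mul_comm (q : ℝ)] at h2
  exact le_of_mul_le_mul_left h2 hc

/-- the bound for the geometric sums -/
noncomputable def G (x : ZMod q) : ℝ := (q : ℝ) / 2 * (1 / (x.val : ℝ) + 1 / ((q - x.val : ℕ) : ℝ))

theorem geom (x : ZMod q) (hx : x ≠ 0) (J : ℕ) : ‖∑ j ∈ range J, (ZMod.stdAddChar : AddChar (ZMod q) ℂ) x ^ j‖ ≤ G x := by
  have hq : 0 < q := (Fact.out : q.Prime).pos
  obtain ⟨b, hb⟩ : ∃ b : ℕ, b = x.val := ⟨_, rfl⟩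
  have hb0 : 0 < b := by
    rw [hb]; exact Nat.pos_of_ne_zero ((ZMod.val_ne_zero x).2 hx)
  have hbq : b < q := by rw [hb]; exact ZMod.val_lt x
  have hqR : (0 : ℝ) < q := by exact_mod_cast hq
  have hbR : (0 : ℝ) < b := by exact_mod_cast hb0
  have hbqR : (b : ℝ) < q := by exact_mod_cast hbq
  have hsub : ((q - b : ℕ) : ℝ) = q - b := Nat.cast_sub hbq.le
  have hpi := Real.pi_pos
  have hval : (ZMod.stdAddChar : AddChar (ZMod q) ℂ) x = Complex.exp (Complex.I * ((2 * Real.pi * (b / q) : ℝ) : ℂ)) := by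
    have h1 : x = ((b : ℤ) : ZMod q) := by
      rw [hb]; push_cast; exact (ZMod.natCast_zmod_val x).symm
    rw [h1, ZMod.stdAddChar_coe]
    congr 1
    push_cast
    ring
  have hnorm : ‖(ZMod.stdAddChar : AddChar (ZMod q) ℂ) x - 1‖ = ‖2 * Real.sin (Real.pi * (b / q))‖ := by
    rw [hval, Complex.norm_exp_I_mul_ofReal_sub_one]
    congr 3
    ring
  have hsin : 2 / q * min (b : ℝ) (q - b) ≤ Real.sin (Real.pi * (b / q)) := by
    rcases le_total ((b : ℝ) / q) (1 / 2) with h | h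
    · have h1 := Real.mul_le_sin (x := Real.pi * (b / q)) (by positivity) (by nlinarith)
      have e : 2 / Real.pi * (Real.pi * (b / q)) = 2 / q * b := by field_simp
      rw [e] at h1
      refine le_trans ?_ h1
      exact mul_le_mul_of_nonneg_left (min_le_left _ _) (by positivity)
    · have h2 : (0 : ℝ) ≤ 1 - b / q := by
        rw [sub_nonneg, div_le_one hqR]; exact hbqR.le
      have h1 := Real.mul_le_sin (x := Real.pi * (1 - b / q)) (by positivity) (by nlinarith)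
      have e : 2 / Real.pi * (Real.pi * (1 - b / q)) = 2 / q * (q - b) := by field_simp
      have e2 : Real.sin (Real.pi * (1 - b / q)) = Real.sin (Real.pi * (b / q)) := by
        rw [show Real.pi * (1 - (b : ℝ) / q) = Real.pi - Real.pi * (b / q) by ring, Real.sin_pi_sub]
      rw [e, e2] at h1
      refine le_trans ?_ h1
      exact mul_le_mul_of_nonneg_left (min_le_right _ _) (by positivity)
  have hmin : 0 < min (b : ℝ) (q - b) := lt_min hbR (by linarith)
  have hpos : 0 < 2 / q * min (b : ℝ) (q - b) := by positivity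
  have hne : (ZMod.stdAddChar : AddChar (ZMod q) ℂ) x - 1 ≠ 0 := by
    intro h0
    rw [h0, norm_zero, Real.norm_eq_abs, abs_of_pos (by linarith)] at hnorm
    linarith
  have hnn : 4 / q * min (b : ℝ) (q - b) ≤ ‖(ZMod.stdAddChar : AddChar (ZMod q) ℂ) x - 1‖ := by
    rw [hnorm, Real.norm_eq_abs, abs_of_pos (by linarith)]
    have : 4 / q * min (b : ℝ) (q - b) = 2 * (2 / q * min (b : ℝ) (q - b)) := by ring
    rw [this]
    linarith
  rw [geom_sum_eq (sub_ne_zero.1 hne), norm_div]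
  have hnum : ‖(ZMod.stdAddChar : AddChar (ZMod q) ℂ) x ^ J - 1‖ ≤ 2 := by
    refine (norm_sub_le _ _).trans ?_
    rw [norm_pow, norm_psi, one_pow, norm_one]
    norm_num
  have h4 : 0 < 4 / q * min (b : ℝ) (q - b) := by positivity
  calc ‖(ZMod.stdAddChar : AddChar (ZMod q) ℂ) x ^ J - 1‖ / ‖(ZMod.stdAddChar : AddChar (ZMod q) ℂ) x - 1‖ ≤ 2 / (4 / q * min (b : ℝ) (q - b)) := by
        apply div_le_div₀ (by norm_num) hnum h4 hnn
    _ = (q : ℝ) / 2 * (1 / min (b : ℝ) (q - b)) := by field_simp; norm_num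
    _ ≤ (q : ℝ) / 2 * (1 / (b : ℝ) + 1 / ((q - b : ℕ) : ℝ)) := by
        apply mul_le_mul_of_nonneg_left _ (by positivity)
        rw [hsub]
        have h5 : 0 < (q : ℝ) - b := by linarith
        rcases min_cases (b : ℝ) (q - b) with ⟨h6, _⟩ | ⟨h6, _⟩
        · rw [h6]
          have : 0 ≤ 1 / ((q : ℝ) - b) := by positivity
          linarith
        · rw [h6]
          have : 0 ≤ 1 / (b : ℝ) := by positivity
          linarith
    _ = G x := by rw [G, hb]

theorem sum_G : ∑ x ∈ (univ : Finset (ZMod q)).erase 0, G x ≤ (q : ℝ) * (1 + Real.log q) := by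
  have hq : 0 < q := (Fact.out : q.Prime).pos
  have hqR : (0 : ℝ) < q := by exact_mod_cast hq
  have h1 : ∑ x ∈ (univ : Finset (ZMod q)).erase 0, G x =
      ∑ b ∈ Ico 1 q, (q : ℝ) / 2 * (1 / (b : ℝ) + 1 / ((q - b : ℕ) : ℝ)) := by
    refine Finset.sum_bij' (fun x _ => x.val) (fun b _ => (b : ZMod q)) ?_ ?_ ?_ ?_ ?_
    · intro x hx
      rw [mem_erase] at hx
      rw [mem_Ico]
      exact ⟨Nat.pos_of_ne_zero ((ZMod.val_ne_zero x).2 hx.1), ZMod.val_lt x⟩
    · intro b hb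
      rw [mem_Ico] at hb
      rw [mem_erase]
      refine ⟨?_, mem_univ _⟩
      intro h0
      rw [ZMod.natCast_eq_zero_iff] at h0
      exact absurd (Nat.le_of_dvd (by omega) h0) (by omega)
    · intro x _
      exact ZMod.natCast_zmod_val x
    · intro b hb
      rw [mem_Ico] at hb
      exact ZMod.val_cast_of_lt hb.2
    · intro x _
      rfl
  rw [h1, ← mul_sum, sum_add_distrib]
  have h2 : ∑ b ∈ Ico 1 q, 1 / ((q - b : ℕ) : ℝ) = ∑ b ∈ Ico 1 q, 1 / (b : ℝ) := by
    refine Finset.sum_bij' (fun b _ => q - b) (fun b _ => q - b) ?_ ?_ ?_ ?_ ?_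
    · intro b hb; rw [mem_Ico] at hb ⊢; omega
    · intro b hb; rw [mem_Ico] at hb ⊢; omega
    · intro b hb; rw [mem_Ico] at hb; omega
    · intro b hb; rw [mem_Ico] at hb; omega
    · intro b _; rfl
  have h3 : ∑ b ∈ Ico 1 q, 1 / (b : ℝ) ≤ 1 + Real.log q := by
    have h := harmonic_le_one_add_log q
    refine le_trans ?_ h
    rw [harmonic_eq_sum_Icc]
    push_cast
    have : ∀ b ∈ Ico 1 q, 1 / (b : ℝ) = ((b : ℝ))⁻¹ := fun b _ => one_div _
    rw [sum_congr rfl this]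
    apply sum_le_sum_of_subset_of_nonneg
    · intro b hb
      rw [mem_Ico] at hb
      rw [mem_Icc]
      omega
    · intro b _ _
      positivity
  rw [h2]
  nlinarith

/-- the exponential sum over a set -/
noncomputable def T (C : Finset (ZMod q)) (t : ZMod q) : ℂ := ∑ c ∈ C, (ZMod.stdAddChar : AddChar (ZMod q) ℂ) (t * c)

/-- the number of the terms of a progression in a set with small Fourier coefficients -/
theorem count_prog (C : Finset (ZMod q)) (B : ℝ) (hB : 0 ≤ B) (hT : ∀ t : ZMod q, t ≠ 0 → ‖T C t‖ ≤ B)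
    (n0 m : ZMod q) (hm : m ≠ 0) (J : ℕ) :
    |(((range J).filter (fun j : ℕ => n0 + m * (j : ZMod q) ∈ C)).card : ℝ) - J * C.card / q| ≤
      B * (1 + Real.log q) := by
  have hq : 0 < q := (Fact.out : q.Prime).pos
  have hqR : (0 : ℝ) < q := by exact_mod_cast hq
  obtain ⟨N, hN⟩ : ∃ N : ℕ, N = ((range J).filter (fun j : ℕ => n0 + m * (j : ZMod q) ∈ C)).card :=
    ⟨_, rfl⟩
  have hcount : (N : ℂ) * q = ∑ t : ZMod q, (starRingEnd ℂ) (T C t) * ((ZMod.stdAddChar : AddChar (ZMod q) ℂ) (t * n0) *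
      ∑ j ∈ range J, (ZMod.stdAddChar : AddChar (ZMod q) ℂ) (t * m) ^ j) := by
    have h1 : (N : ℂ) = ∑ j ∈ range J, ∑ c ∈ C,
        (if n0 + m * (j : ZMod q) - c = 0 then (1 : ℂ) else 0) := by
      rw [hN, card_filter, Nat.cast_sum]
      apply Finset.sum_congr rfl
      intro j _
      rw [Nat.cast_ite, Nat.cast_one, Nat.cast_zero]
      split_ifs with hj
      · rw [Finset.sum_eq_single (n0 + m * (j : ZMod q))]
        · rw [if_pos (by rw [sub_self])]
        · intro c _ hne'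
          rw [if_neg]
          intro h0
          exact hne' (sub_eq_zero.1 h0).symm
        · intro hn; exact absurd hj hn
      · symm
        apply sum_eq_zero
        intro c hc
        rw [if_neg]
        intro h0
        rw [sub_eq_zero] at h0
        exact hj (h0 ▸ hc)
    have h2 : ∀ y : ZMod q, (if y = 0 then (1 : ℂ) else 0) * q = ∑ t : ZMod q, (ZMod.stdAddChar : AddChar (ZMod q) ℂ) (t * y) := by
      intro y
      rw [sum_psi]
      split_ifs <;> simp
    rw [h1, sum_mul]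
    simp_rw [sum_mul, h2]
    have h3 : ∀ j ∈ range J, ∑ c ∈ C, ∑ t : ZMod q,
        (ZMod.stdAddChar : AddChar (ZMod q) ℂ) (t * (n0 + m * (j : ZMod q) - c)) =
        ∑ t : ZMod q, (starRingEnd ℂ) (T C t) * ((ZMod.stdAddChar : AddChar (ZMod q) ℂ) (t * n0) * (ZMod.stdAddChar : AddChar (ZMod q) ℂ) (t * m) ^ j) := by
      intro j _
      rw [sum_comm]
      refine sum_congr rfl fun t _ => ?_
      unfold T
      rw [map_sum, sum_mul]
      refine sum_congr rfl fun c _ => ?_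
      rw [← AddChar.map_neg_eq_conj, ← AddChar.map_nsmul_eq_pow, ← AddChar.map_add_eq_mul,
        ← AddChar.map_add_eq_mul]
      congr 1
      rw [nsmul_eq_mul]
      ring
    rw [sum_congr rfl h3, sum_comm]
    refine sum_congr rfl fun t _ => ?_
    rw [mul_sum, mul_sum]
  have h0 : (starRingEnd ℂ) (T C 0) * ((ZMod.stdAddChar : AddChar (ZMod q) ℂ) ((0 : ZMod q) * n0) *
      ∑ j ∈ range J, (ZMod.stdAddChar : AddChar (ZMod q) ℂ) ((0 : ZMod q) * m) ^ j) = (J : ℂ) * C.card := by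
    unfold T
    simp
    ring
  rw [← Finset.add_sum_erase (univ : Finset (ZMod q)) (fun t => (starRingEnd ℂ) (T C t) * ((ZMod.stdAddChar : AddChar (ZMod q) ℂ) (t * n0) *
      ∑ j ∈ range J, (ZMod.stdAddChar : AddChar (ZMod q) ℂ) (t * m) ^ j)) (mem_univ (0 : ZMod q)), h0] at hcount
  have hdiff : ‖(N : ℂ) * q - (J : ℂ) * C.card‖ ≤ B * (q * (1 + Real.log q)) := by
    have h5 : (N : ℂ) * q - (J : ℂ) * C.card = ∑ t ∈ (univ : Finset (ZMod q)).erase 0,
        (starRingEnd ℂ) (T C t) * ((ZMod.stdAddChar : AddChar (ZMod q) ℂ) (t * n0) * ∑ j ∈ range J, (ZMod.stdAddChar : AddChar (ZMod q) ℂ) (t * m) ^ j) := by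
      rw [hcount]; ring
    rw [h5]
    refine (norm_sum_le _ _).trans ?_
    have h6 : ∀ t ∈ (univ : Finset (ZMod q)).erase 0,
        ‖(starRingEnd ℂ) (T C t) * ((ZMod.stdAddChar : AddChar (ZMod q) ℂ) (t * n0) * ∑ j ∈ range J, (ZMod.stdAddChar : AddChar (ZMod q) ℂ) (t * m) ^ j)‖ ≤
        B * G (t * m) := by
      intro t ht
      have ht0 := (mem_erase.1 ht).1
      rw [norm_mul, norm_mul, norm_psi, one_mul, RCLike.norm_conj]
      exact mul_le_mul (hT t ht0) (geom (t * m) (mul_ne_zero ht0 hm) J)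
        (norm_nonneg _) hB
    refine (sum_le_sum h6).trans ?_
    rw [← mul_sum]
    apply mul_le_mul_of_nonneg_left _ hB
    have h7 : ∑ t ∈ (univ : Finset (ZMod q)).erase 0, G (t * m) =
        ∑ x ∈ (univ : Finset (ZMod q)).erase 0, G x := by
      refine Finset.sum_bij' (fun t _ => t * m) (fun t _ => t * m⁻¹) ?_ ?_ ?_ ?_ ?_
      · intro t ht
        rw [mem_erase] at ht ⊢
        exact ⟨mul_ne_zero ht.1 hm, mem_univ _⟩
      · intro t ht
        rw [mem_erase] at ht ⊢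
        exact ⟨mul_ne_zero ht.1 (inv_ne_zero hm), mem_univ _⟩
      · intro t _; field_simp
      · intro t _; field_simp
      · intro t _; rfl
    rw [h7]
    exact sum_G
  have h8 : ‖(N : ℂ) * q - (J : ℂ) * C.card‖ = |(N : ℝ) * q - J * C.card| := by
    have : (N : ℂ) * q - (J : ℂ) * C.card = (((N : ℝ) * q - J * C.card : ℝ) : ℂ) := by push_cast; ring
    rw [this, Complex.norm_real, Real.norm_eq_abs]
  rw [h8] at hdiff
  rw [← hN]
  have h9 : (N : ℝ) - J * C.card / q = ((N : ℝ) * q - J * C.card) / q := by field_simp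
  rw [h9, abs_div, abs_of_pos hqR, div_le_iff₀ hqR]
  calc |(N : ℝ) * q - J * C.card| ≤ B * (q * (1 + Real.log q)) := hdiff
    _ = B * (1 + Real.log q) * q := by ring

theorem prog_struct (N L : ℤ) (hL : 0 ≤ L) (m : ℕ) (hm : 0 < m) (r : ℤ) :
    ∃ (n0 : ℤ) (J : ℕ), |(J : ℝ) - (L : ℝ) / m| ≤ 1 ∧
      (Ioc N (N + L)).filter (fun n => (m : ℤ) ∣ n - r) =
        (range J).image (fun j : ℕ => n0 + (m : ℤ) * (j : ℤ)) := by
  have hmZ : (0 : ℤ) < m := by exact_mod_cast hm
  have hmR : (0 : ℝ) < m := by exact_mod_cast hm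
  obtain ⟨n0, hn0⟩ : ∃ n0 : ℤ, n0 = N + 1 + (r - (N + 1)) % m := ⟨_, rfl⟩
  have h1 := Int.emod_nonneg (r - (N + 1)) hmZ.ne'
  have h2 := Int.emod_lt_of_pos (r - (N + 1)) hmZ
  have h3 : (m : ℤ) ∣ n0 - r := by
    have h4 := Int.emod_add_mul_ediv (r - (N + 1)) m
    refine ⟨-((r - (N + 1)) / m), ?_⟩
    rw [hn0]
    linarith
  obtain ⟨A, hA⟩ : ∃ A : ℤ, A = (N + L - n0) / m + 1 := ⟨_, rfl⟩
  have hdm := Int.emod_add_mul_ediv (N + L - n0) m
  have hd1 := Int.emod_nonneg (N + L - n0) hmZ.ne'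
  have hd2 := Int.emod_lt_of_pos (N + L - n0) hmZ
  have hA1 : (m : ℤ) * A = N + L - n0 - (N + L - n0) % m + m := by
    rw [hA, mul_add, mul_one]; linarith
  have hA0 : 0 ≤ A := by
    by_contra hneg
    push Not at hneg
    have : (m : ℤ) * A ≤ m * (-1) := mul_le_mul_of_nonneg_left (by omega) hmZ.le
    linarith
  obtain ⟨J, hJ⟩ : ∃ J : ℕ, A = J := Int.eq_ofNat_of_zero_le hA0
  refine ⟨n0, J, ?_, ?_⟩
  · have e1 : (m : ℤ) * J ≤ L + m := by rw [← hJ]; linarith
    have e2 : L - m ≤ (m : ℤ) * J := by rw [← hJ]; linarith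
    have e1R : (m : ℝ) * J ≤ L + m := by exact_mod_cast e1
    have e2R : (L : ℝ) - m ≤ m * J := by exact_mod_cast e2
    have e3 : (J : ℝ) - L / m = (m * J - L) / m := by field_simp
    rw [e3, abs_div, abs_of_pos hmR, div_le_one hmR, abs_le]
    constructor <;> linarith
  · ext n
    rw [mem_filter, mem_Ioc, mem_image]
    constructor
    · rintro ⟨⟨h4, h5⟩, h6⟩
      obtain ⟨k, hk⟩ := dvd_sub h6 h3
      have e0 : n - n0 = m * k := by rw [← hk]; ring
      have hk0 : 0 ≤ k := by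
        by_contra hneg
        push Not at hneg
        have : (m : ℤ) * k ≤ m * (-1) := mul_le_mul_of_nonneg_left (by omega) hmZ.le
        linarith
      obtain ⟨j, rfl⟩ := Int.eq_ofNat_of_zero_le hk0
      refine ⟨j, ?_, by linarith⟩
      rw [mem_range]
      have : (j : ℤ) < J := by
        rw [← hJ]
        by_contra hneg
        push Not at hneg
        have : (m : ℤ) * A ≤ m * j := mul_le_mul_of_nonneg_left hneg hmZ.le
        linarith
      exact_mod_cast this
    · rintro ⟨j, hj, rfl⟩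
      rw [mem_range] at hj
      have hj' : (j : ℤ) + 1 ≤ A := by rw [hJ]; exact_mod_cast hj
      have e1 : (m : ℤ) * (j + 1) ≤ m * A := mul_le_mul_of_nonneg_left hj' hmZ.le
      have e2 : (0 : ℤ) ≤ m * j := by positivity
      refine ⟨⟨by linarith, by linarith⟩, ?_⟩
      have e3 : n0 + (m : ℤ) * j - r = (n0 - r) + m * j := by ring
      rw [e3]
      exact dvd_add h3 (dvd_mul_right _ _)

/-- the members of a set with small Fourier coefficients in an interval and a residue class -/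
theorem interval_count (C : Finset (ZMod q)) (B : ℝ) (hB : 0 ≤ B)
    (hT : ∀ t : ZMod q, t ≠ 0 → ‖T C t‖ ≤ B) (N L : ℤ) (hL : 0 ≤ L) (m : ℕ) (hm : 0 < m) (hmq : m < q)
    (r : ℤ) :
    |(((Ioc N (N + L)).filter (fun n : ℤ => ((n : ℤ) : ZMod q) ∈ C ∧ (m : ℤ) ∣ n - r)).card : ℝ) -
      (L : ℝ) * C.card / q / m| ≤ B * (1 + Real.log q) + 1 := by
  have hq : 0 < q := (Fact.out : q.Prime).pos
  have hqR : (0 : ℝ) < q := by exact_mod_cast hq
  have hmR : (0 : ℝ) < m := by exact_mod_cast hm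
  obtain ⟨n0, J, hJ, hst⟩ := prog_struct N L hL m hm r
  have h1 : ((Ioc N (N + L)).filter (fun n : ℤ => ((n : ℤ) : ZMod q) ∈ C ∧ (m : ℤ) ∣ n - r)).card =
      ((range J).filter (fun j : ℕ => (n0 : ZMod q) + (m : ZMod q) * (j : ZMod q) ∈ C)).card := by
    have h2 : (Ioc N (N + L)).filter (fun n : ℤ => ((n : ℤ) : ZMod q) ∈ C ∧ (m : ℤ) ∣ n - r) =
        ((range J).filter (fun j : ℕ => (n0 : ZMod q) + (m : ZMod q) * (j : ZMod q) ∈ C)).image
          (fun j : ℕ => n0 + (m : ℤ) * (j : ℤ)) := by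
      ext n
      rw [mem_filter, mem_image]
      constructor
      · rintro ⟨h3, h4, h5⟩
        have h6 : n ∈ (Ioc N (N + L)).filter (fun n => (m : ℤ) ∣ n - r) := mem_filter.2 ⟨h3, h5⟩
        rw [hst, mem_image] at h6
        obtain ⟨j, hj, rfl⟩ := h6
        refine ⟨j, mem_filter.2 ⟨hj, ?_⟩, rfl⟩
        push_cast at h4
        exact h4
      · rintro ⟨j, hj, rfl⟩
        rw [mem_filter] at hj
        have h6 : n0 + (m : ℤ) * (j : ℤ) ∈ (Ioc N (N + L)).filter (fun n => (m : ℤ) ∣ n - r) := by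
          rw [hst, mem_image]
          exact ⟨j, hj.1, rfl⟩
        rw [mem_filter] at h6
        refine ⟨h6.1, ?_, h6.2⟩
        push_cast
        exact hj.2
    rw [h2, card_image_of_injective]
    intro j j' h
    have h3 : (m : ℤ) * j = m * j' := by simpa using h
    have h4 : (j : ℤ) = j' := mul_left_cancel₀ (by exact_mod_cast hm.ne') h3
    exact_mod_cast h4
  rw [h1]
  have hm0 : (m : ZMod q) ≠ 0 := by
    intro h0
    rw [ZMod.natCast_eq_zero_iff] at h0
    exact absurd (Nat.le_of_dvd hm h0) (by omega)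
  have h3 := count_prog C B hB hT n0 m hm0 J
  have hC : (C.card : ℝ) ≤ q := by
    have : C.card ≤ q := by
      have := card_le_univ C
      rwa [ZMod.card] at this
    exact_mod_cast this
  have h4 : |(J : ℝ) * C.card / q - (L : ℝ) * C.card / q / m| ≤ 1 := by
    have e : (J : ℝ) * C.card / q - (L : ℝ) * C.card / q / m = ((J : ℝ) - L / m) * (C.card / q) := by
      field_simp
    rw [e, abs_mul, abs_of_nonneg (show (0 : ℝ) ≤ C.card / q by positivity)]
    calc |(J : ℝ) - L / m| * (C.card / q) ≤ 1 * 1 := by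
          apply mul_le_mul hJ _ (by positivity) (by norm_num)
          rw [div_le_one hqR]; exact hC
      _ = 1 := one_mul 1
  have h5 := abs_le.1 h3
  have h6 := abs_le.1 h4
  rw [abs_le]
  constructor <;> linarith [h5.1, h5.2, h6.1, h6.2]

/-- the coset `g H` as a set -/
noncomputable def coset (H : Finset (ZMod q)ˣ) (g : (ZMod q)ˣ) : Finset (ZMod q) :=
  H.image (fun h : (ZMod q)ˣ => ((g * h : (ZMod q)ˣ) : ZMod q))

theorem coset_card (H : Finset (ZMod q)ˣ) (g : (ZMod q)ˣ) : (coset H g).card = H.card := by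
  unfold coset
  rw [card_image_of_injective]
  intro h h' e
  exact mul_left_cancel (Units.ext e)

theorem T_coset (H : Finset (ZMod q)ˣ) (g : (ZMod q)ˣ) (t : ZMod q) : T (coset H g) t = S H g t := by
  unfold T S coset
  rw [sum_image]
  intro h _ h' _ e
  exact mul_left_cancel (Units.ext e)

theorem coset_bound (H : Finset (ZMod q)ˣ) (g : (ZMod q)ˣ) (hmul : ∀ u ∈ H, ∀ h ∈ H, u * h ∈ H)
    (hinv : ∀ u ∈ H, u⁻¹ ∈ H) (hne : H.Nonempty) (t : ZMod q) (ht : t ≠ 0) :
    ‖T (coset H g) t‖ ≤ Real.sqrt q := by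
  rw [T_coset]
  exact S_bound H g hmul hinv hne t ht

end

end Pool.Agent.helper825_CS
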