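import Pool.Agent.helper825_CS.Fourier
import Pool.Agent.helper825_SB.Gen
import Pool.Agent.helper825_SB.Cnt
import Pool.Agent.H498R2.KlWeil

set_option autoImplicit false

/-! # Points on modular hyperbolas in boxes and residue classes -/

namespace Pool.Agent.helper825_CS

open Finset

open scoped Classical

section

variable {q : ℕ} [Fact q.Prime]

/-- Weil's bound for Kloosterman sums over the prime fields -/
theorem kl_le (b c : ZMod q) (hc : c ≠ 0) :
    ‖∑ y ∈ (univ : Finset (ZMod q)).erase 0, (ZMod.stdAddChar : AddChar (ZMod q) ℂ) (b * y + c * y⁻¹)‖ ≤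
      2 * Real.sqrt q := by
  have hqp : q.Prime := Fact.out
  have hq1 : (1 : ℝ) ≤ q := by exact_mod_cast hqp.one_lt.le
  have hs1 : 1 ≤ Real.sqrt q := Real.one_le_sqrt.2 hq1
  by_cases hq : q = 2
  · refine (norm_sum_le _ _).trans ?_
    simp_rw [norm_psi]
    rw [sum_const, card_erase_of_mem (mem_univ _), card_univ, ZMod.card, hq]
    have h2 : (1 : ℝ) ≤ Real.sqrt ((2 : ℕ) : ℝ) := by rw [hq] at hs1; exact hs1
    simp only [Nat.add_one_sub_one, nsmul_eq_mul, Nat.cast_one, mul_one]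
    linarith
  by_cases hb : b = 0
  · have h1 : ∑ y ∈ (univ : Finset (ZMod q)).erase 0,
        (ZMod.stdAddChar : AddChar (ZMod q) ℂ) (b * y + c * y⁻¹) =
        ∑ y ∈ (univ : Finset (ZMod q)).erase 0, (ZMod.stdAddChar : AddChar (ZMod q) ℂ) (y * c) := by
      refine Finset.sum_bij' (fun y _ => y⁻¹) (fun y _ => y⁻¹) ?_ ?_ ?_ ?_ ?_
      · intro y hy
        rw [mem_erase] at hy ⊢
        exact ⟨inv_ne_zero hy.1, mem_univ _⟩
      · intro y hy
        rw [mem_erase] at hy ⊢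
        exact ⟨inv_ne_zero hy.1, mem_univ _⟩
      · intro y _; exact inv_inv y
      · intro y _; exact inv_inv y
      · intro y _
        congr 1
        rw [hb]
        ring
    have h2 := sum_psi c
    rw [if_neg hc, ← Finset.add_sum_erase _ _ (mem_univ (0 : ZMod q)), zero_mul,
      AddChar.map_zero_eq_one] at h2
    have h3 : ∑ y ∈ (univ : Finset (ZMod q)).erase 0, (ZMod.stdAddChar : AddChar (ZMod q) ℂ) (y * c) = -1 := by
      linear_combination h2
    rw [h1, h3, norm_neg, norm_one]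
    linarith
  · have h1 := Pool.Agent.H498R2.Kl.kloosterman_le (F := ZMod q) (by rw [ZMod.ringChar_zmod_n]; exact hq)
      (ZMod.isPrimitive_stdAddChar q) hb hc
    rw [ZMod.card, ← Finset.add_sum_erase _ _ (mem_univ (0 : ZMod q)), if_pos rfl, zero_add] at h1
    refine le_trans (le_of_eq ?_) h1
    congr 1
    refine sum_congr rfl fun y hy => ?_
    rw [if_neg (mem_erase.1 hy).1]

/-- completing an incomplete sum -/
theorem incomplete (w : ZMod q → ℂ) (K : ℝ)
    (hw : ∀ s : ZMod q, ‖∑ y : ZMod q, w y * (ZMod.stdAddChar : AddChar (ZMod q) ℂ) (-(s * y))‖ ≤ K)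
    (n0 m : ZMod q) (hm : m ≠ 0) (J : ℕ) (hJ : J ≤ q) :
    ‖∑ j ∈ range J, w (n0 + m * (j : ZMod q))‖ ≤ K * (2 + Real.log q) := by
  have hq : 0 < q := (Fact.out : q.Prime).pos
  have hqR : (0 : ℝ) < q := by exact_mod_cast hq
  have hK : 0 ≤ K := (norm_nonneg _).trans (hw 0)
  have h1 : ∀ z : ZMod q, w z * q = ∑ s : ZMod q,
      (∑ y : ZMod q, w y * (ZMod.stdAddChar : AddChar (ZMod q) ℂ) (-(s * y))) *
        (ZMod.stdAddChar : AddChar (ZMod q) ℂ) (s * z) := by
    intro z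
    have h2 : w z * q = ∑ y : ZMod q, w y * (if z - y = 0 then (q : ℂ) else 0) := by
      rw [Finset.sum_eq_single z]
      · rw [if_pos (sub_self z)]
      · intro y _ hne
        rw [if_neg (fun h0 => hne (sub_eq_zero.1 h0).symm), mul_zero]
      · intro h0; exact absurd (mem_univ z) h0
    rw [h2]
    simp_rw [← sum_psi, mul_sum, sum_mul]
    rw [sum_comm]
    refine sum_congr rfl fun s _ => sum_congr rfl fun y _ => ?_
    rw [mul_assoc, ← AddChar.map_add_eq_mul]
    congr 2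
    ring
  have h3 : (∑ j ∈ range J, w (n0 + m * (j : ZMod q))) * q = ∑ s : ZMod q,
      (∑ y : ZMod q, w y * (ZMod.stdAddChar : AddChar (ZMod q) ℂ) (-(s * y))) *
        ((ZMod.stdAddChar : AddChar (ZMod q) ℂ) (s * n0) *
          ∑ j ∈ range J, (ZMod.stdAddChar : AddChar (ZMod q) ℂ) (s * m) ^ j) := by
    rw [sum_mul]
    simp_rw [h1]
    rw [sum_comm]
    refine sum_congr rfl fun s _ => ?_
    rw [← mul_sum]
    congr 1
    rw [mul_sum]
    refine sum_congr rfl fun j _ => ?_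
    rw [← AddChar.map_nsmul_eq_pow, ← AddChar.map_add_eq_mul]
    congr 1
    rw [nsmul_eq_mul]
    ring
  have h4 : ‖(∑ j ∈ range J, w (n0 + m * (j : ZMod q))) * q‖ ≤ K * (q * (2 + Real.log q)) := by
    rw [h3]
    refine (norm_sum_le _ _).trans ?_
    have h5 : ∀ s : ZMod q, ‖(∑ y : ZMod q, w y * (ZMod.stdAddChar : AddChar (ZMod q) ℂ) (-(s * y))) *
        ((ZMod.stdAddChar : AddChar (ZMod q) ℂ) (s * n0) *
          ∑ j ∈ range J, (ZMod.stdAddChar : AddChar (ZMod q) ℂ) (s * m) ^ j)‖ ≤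
        K * ‖∑ j ∈ range J, (ZMod.stdAddChar : AddChar (ZMod q) ℂ) (s * m) ^ j‖ := by
      intro s
      rw [norm_mul, norm_mul, norm_psi, one_mul]
      exact mul_le_mul_of_nonneg_right (hw s) (norm_nonneg _)
    refine (sum_le_sum fun s _ => h5 s).trans ?_
    rw [← mul_sum]
    apply mul_le_mul_of_nonneg_left _ hK
    rw [← Finset.add_sum_erase _ _ (mem_univ (0 : ZMod q))]
    have h6 : ‖∑ j ∈ range J, (ZMod.stdAddChar : AddChar (ZMod q) ℂ) ((0 : ZMod q) * m) ^ j‖ ≤ q := by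
      simp only [zero_mul, AddChar.map_zero_eq_one, one_pow, sum_const, card_range, nsmul_eq_mul,
        mul_one, Complex.norm_natCast]
      exact_mod_cast hJ
    have h7 : ∑ s ∈ (univ : Finset (ZMod q)).erase 0,
        ‖∑ j ∈ range J, (ZMod.stdAddChar : AddChar (ZMod q) ℂ) (s * m) ^ j‖ ≤ q * (1 + Real.log q) := by
      refine (sum_le_sum (g := fun s => G (s * m)) fun s hs =>
        geom (s * m) (mul_ne_zero (mem_erase.1 hs).1 hm) J).trans ?_
      have h8 : ∑ t ∈ (univ : Finset (ZMod q)).erase 0, G (t * m) =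
          ∑ x ∈ (univ : Finset (ZMod q)).erase 0, G x := by
        refine Finset.sum_bij' (fun t _ => t * m) (fun t _ => t * m⁻¹) ?_ ?_ ?_ ?_ ?_
        · intro t ht
          rw [mem_erase] at ht ⊢
          exact ⟨mul_ne_zero ht.1 hm, mem_univ _⟩
        · intro t ht
          rw [mem_erase] at ht ⊢
          exact ⟨mul_ne_zero ht.1 (inv_ne_zero hm), mem_univ _⟩
        · intro t _; field_simp
        · intro t _; field_simp
        · intro t _; rfl
      rw [h8]
      exact sum_G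
    linarith
  rw [norm_mul, Complex.norm_natCast] at h4
  refine le_of_mul_le_mul_right ?_ hqR
  calc ‖∑ j ∈ range J, w (n0 + m * (j : ZMod q))‖ * q ≤ K * (q * (2 + Real.log q)) := h4
    _ = K * (2 + Real.log q) * q := by ring

/-- the quotients `a / n`, `n` in an interval and a residue class -/
noncomputable def R (a : ZMod q) (M K : ℤ) (m : ℕ) (r : ℤ) : Finset (ZMod q) :=
  ((Ioc M (M + K)).filter (fun n : ℤ => (m : ℤ) ∣ n - r ∧ ((n : ℤ) : ZMod q) ≠ 0)).image
    (fun n : ℤ => a * ((n : ℤ) : ZMod q)⁻¹)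

theorem inj_of_short (M K : ℤ) (hK : K ≤ q) (x y : ℤ) (hx : x ∈ Ioc M (M + K)) (hy : y ∈ Ioc M (M + K))
    (h : ((x : ℤ) : ZMod q) = ((y : ℤ) : ZMod q)) : x = y := by
  rw [mem_Ioc] at hx hy
  have h1 : (q : ℤ) ∣ y - x := (ZMod.intCast_eq_intCast_iff_dvd_sub x y q).1 h
  have h2 : y - x = 0 := by
    apply Int.eq_zero_of_abs_lt_dvd h1
    rw [abs_lt]
    constructor <;> linarith
  linarith

theorem R_inj (a : ZMod q) (ha : a ≠ 0) (M K : ℤ) (hK : K ≤ q) (m : ℕ) (r : ℤ) :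
    Set.InjOn (fun n : ℤ => a * ((n : ℤ) : ZMod q)⁻¹)
      ((Ioc M (M + K)).filter (fun n : ℤ => (m : ℤ) ∣ n - r ∧ ((n : ℤ) : ZMod q) ≠ 0) : Finset ℤ) := by
  intro x hx y hy h
  rw [mem_coe, mem_filter] at hx hy
  exact inj_of_short M K hK x y hx.1 hy.1 (inv_injective (mul_left_cancel₀ ha h))

theorem R_card (a : ZMod q) (ha : a ≠ 0) (M K : ℤ) (hK0 : 0 ≤ K) (hK : K ≤ q) (m : ℕ) (hm : 0 < m)
    (r : ℤ) : |((R a M K m r).card : ℝ) - (K : ℝ) / m| ≤ 2 := by
  unfold R
  rw [card_image_of_injOn (R_inj a ha M K hK m r)]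
  obtain ⟨n0, J, hJ, hst⟩ := prog_struct M K hK0 m hm r
  have hJc : ((Ioc M (M + K)).filter (fun n : ℤ => (m : ℤ) ∣ n - r)).card = J := by
    rw [hst, card_image_of_injective, card_range]
    intro j j' h
    have h3 : (m : ℤ) * j = m * j' := by simpa using h
    have h4 : (j : ℤ) = j' := mul_left_cancel₀ (by exact_mod_cast hm.ne') h3
    exact_mod_cast h4
  have h1 := Finset.card_filter_add_card_filter_not
    (s := (Ioc M (M + K)).filter (fun n : ℤ => (m : ℤ) ∣ n - r)) (fun n : ℤ => ((n : ℤ) : ZMod q) = 0)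
  rw [hJc, Finset.filter_filter, Finset.filter_filter] at h1
  have h2 : ((Ioc M (M + K)).filter (fun n : ℤ => (m : ℤ) ∣ n - r ∧ ((n : ℤ) : ZMod q) = 0)).card ≤ 1 := by
    rw [Finset.card_le_one]
    intro x hx y hy
    rw [mem_filter] at hx hy
    exact inj_of_short M K hK x y hx.1 hy.1 (by rw [hx.2.2, hy.2.2])
  have h3 : (((Ioc M (M + K)).filter (fun n : ℤ => (m : ℤ) ∣ n - r ∧ ((n : ℤ) : ZMod q) = 0)).card : ℝ) +
      ((Ioc M (M + K)).filter (fun n : ℤ => (m : ℤ) ∣ n - r ∧ ¬ ((n : ℤ) : ZMod q) = 0)).card = J := by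
    exact_mod_cast h1
  have h4 : (((Ioc M (M + K)).filter (fun n : ℤ => (m : ℤ) ∣ n - r ∧ ((n : ℤ) : ZMod q) = 0)).card : ℝ) ≤ 1 := by
    exact_mod_cast h2
  have h5 : (0 : ℝ) ≤ (((Ioc M (M + K)).filter
      (fun n : ℤ => (m : ℤ) ∣ n - r ∧ ((n : ℤ) : ZMod q) = 0)).card : ℝ) := Nat.cast_nonneg _
  have h6 := abs_le.1 hJ
  simp only [ne_eq]
  rw [abs_le]
  constructor <;> linarith [h6.1, h6.2]

theorem R_bound (a : ZMod q) (ha : a ≠ 0) (M K : ℤ) (hK0 : 0 ≤ K) (hK : K ≤ q) (m : ℕ) (hm : 0 < m)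
    (hmq : m < q) (r : ℤ) (t : ZMod q) (ht : t ≠ 0) :
    ‖T (R a M K m r) t‖ ≤ 2 * Real.sqrt q * (2 + Real.log q) := by
  obtain ⟨n0, J, hJ, hst⟩ := prog_struct M K hK0 m hm r
  obtain ⟨w, hw⟩ : ∃ w : ZMod q → ℂ, w = fun y => if y = 0 then 0 else
      (ZMod.stdAddChar : AddChar (ZMod q) ℂ) (t * (a * y⁻¹)) := ⟨_, rfl⟩
  have h1 : T (R a M K m r) t = ∑ j ∈ range J, w ((n0 : ZMod q) + (m : ZMod q) * (j : ZMod q)) := by
    unfold T R
    rw [sum_image (R_inj a ha M K hK m r)]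
    have h2 : (Ioc M (M + K)).filter (fun n : ℤ => (m : ℤ) ∣ n - r ∧ ((n : ℤ) : ZMod q) ≠ 0) =
        ((range J).image (fun j : ℕ => n0 + (m : ℤ) * (j : ℤ))).filter
          (fun n : ℤ => ((n : ℤ) : ZMod q) ≠ 0) := by
      rw [← hst, Finset.filter_filter]
    rw [h2, Finset.sum_filter, sum_image]
    · refine sum_congr rfl fun j _ => ?_
      rw [hw]
      push_cast
      by_cases h0 : (n0 : ZMod q) + (m : ZMod q) * (j : ZMod q) = 0
      · simp [h0]
      · simp [h0]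
    · intro j _ j' _ h
      have h3 : (m : ℤ) * j = m * j' := by simpa using h
      have h4 : (j : ℤ) = j' := mul_left_cancel₀ (by exact_mod_cast hm.ne') h3
      exact_mod_cast h4
  rw [h1]
  have hm0 : (m : ZMod q) ≠ 0 := by
    intro h0
    rw [ZMod.natCast_eq_zero_iff] at h0
    exact absurd (Nat.le_of_dvd hm h0) (by omega)
  have hJq : J ≤ q := by
    have e1 : ((range J).image (fun j : ℕ => n0 + (m : ℤ) * (j : ℤ))).card = J := by
      rw [card_image_of_injective, card_range]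
      intro j j' h
      have h3 : (m : ℤ) * j = m * j' := by simpa using h
      have h4 : (j : ℤ) = j' := mul_left_cancel₀ (by exact_mod_cast hm.ne') h3
      exact_mod_cast h4
    have e2 : ((range J).image (fun j : ℕ => n0 + (m : ℤ) * (j : ℤ))).card ≤ (Ioc M (M + K)).card := by
      rw [← hst]
      exact card_filter_le _ _
    rw [e1, Int.card_Ioc] at e2
    have e3 : M + K - M = K := by ring
    rw [e3] at e2
    omega
  refine incomplete w _ ?_ _ _ hm0 J hJq
  intro s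
  have h5 : ∑ y : ZMod q, w y * (ZMod.stdAddChar : AddChar (ZMod q) ℂ) (-(s * y)) =
      ∑ y ∈ (univ : Finset (ZMod q)).erase 0,
        (ZMod.stdAddChar : AddChar (ZMod q) ℂ) ((-s) * y + (t * a) * y⁻¹) := by
    rw [← Finset.add_sum_erase _ _ (mem_univ (0 : ZMod q))]
    rw [hw]
    simp only [if_true, zero_mul, zero_add]
    refine sum_congr rfl fun y hy => ?_
    rw [if_neg (mem_erase.1 hy).1, ← AddChar.map_add_eq_mul]
    congr 1
    ring
  rw [h5]
  exact kl_le _ _ (mul_ne_zero ht ha)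

/-- the points on the modular hyperbola `x y = a` in a box -/
noncomputable def Hyp (a : ZMod q) (N L M K : ℤ) : Finset (Fin 2 → ℤ) :=
  (((Ioc N (N + L)) ×ˢ (Ioc M (M + K))).filter
    (fun x : ℤ × ℤ => ((x.1 : ℤ) : ZMod q) * ((x.2 : ℤ) : ZMod q) = a)).image (fun x => ![x.1, x.2])

theorem mem_Hyp (a : ZMod q) (N L M K : ℤ) (v : Fin 2 → ℤ) : v ∈ Hyp a N L M K ↔
    (v 0 ∈ Ioc N (N + L) ∧ v 1 ∈ Ioc M (M + K)) ∧ ((v 0 : ℤ) : ZMod q) * ((v 1 : ℤ) : ZMod q) = a := by
  unfold Hyp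
  rw [mem_image]
  constructor
  · rintro ⟨x, hx, rfl⟩
    rw [mem_filter, mem_product] at hx
    exact hx
  · intro h
    refine ⟨(v 0, v 1), ?_, ?_⟩
    · rw [mem_filter, mem_product]
      exact h
    · ext j
      fin_cases j <;> rfl

theorem Hyp_count (a : ZMod q) (ha : a ≠ 0) (N L M K : ℤ) (hL0 : 0 ≤ L) (hL : L ≤ q) (hK0 : 0 ≤ K)
    (hK : K ≤ q) (m : ℕ) (hm : 0 < m) (hmq : m < q) (c : Fin 2 → ℤ) :
    |((((Hyp a N L M K).filter (fun x => ∀ j, (m : ℤ) ∣ x j - c j)).card : ℕ) : ℝ) -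
      (L : ℝ) * K / q / (m : ℝ) ^ 2| ≤
      2 * Real.sqrt q * (2 + Real.log q) * (1 + Real.log q) + 3 := by
  have hqp : q.Prime := Fact.out
  have hqR : (0 : ℝ) < q := by exact_mod_cast hqp.pos
  have hlq : 0 ≤ Real.log q := Real.log_nonneg (by exact_mod_cast hqp.one_lt.le)
  have hmR : (0 : ℝ) < m := by exact_mod_cast hm
  have h1 : ((Hyp a N L M K).filter (fun x => ∀ j, (m : ℤ) ∣ x j - c j)).card =
      ((Ioc N (N + L)).filter (fun n : ℤ => ((n : ℤ) : ZMod q) ∈ R a M K m (c 1) ∧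
        (m : ℤ) ∣ n - c 0)).card := by
    refine Finset.card_bij (fun x _ => x 0) ?_ ?_ ?_
    · intro x hx
      rw [mem_filter, mem_Hyp] at hx
      obtain ⟨⟨⟨h2, h3⟩, h4⟩, h5⟩ := hx
      rw [mem_filter]
      have h6 : ((x 1 : ℤ) : ZMod q) ≠ 0 := by
        intro h0
        rw [h0, mul_zero] at h4
        exact ha h4.symm
      refine ⟨h2, ?_, h5 0⟩
      unfold R
      rw [mem_image]
      refine ⟨x 1, mem_filter.2 ⟨h3, h5 1, h6⟩, ?_⟩
      rw [← h4, mul_assoc, mul_inv_cancel₀ h6, mul_one]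
    · intro x hx y hy hxy
      rw [mem_filter, mem_Hyp] at hx hy
      have hx1 := hx.1.2
      have hy1 := hy.1.2
      have hxy' : x 0 = y 0 := hxy
      rw [← hxy'] at hy1
      have h0 : ((x 0 : ℤ) : ZMod q) ≠ 0 := by
        intro h0
        rw [h0, zero_mul] at hx1
        exact ha hx1.symm
      have h2 : x 1 = y 1 := inj_of_short M K hK _ _ hx.1.1.2 hy.1.1.2
        (mul_left_cancel₀ h0 (hx1.trans hy1.symm))
      funext j
      fin_cases j
      · exact hxy'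
      · exact h2
    · intro n hn
      rw [mem_filter] at hn
      obtain ⟨h2, h3, h4⟩ := hn
      unfold R at h3
      rw [mem_image] at h3
      obtain ⟨y, hy, hyn⟩ := h3
      rw [mem_filter] at hy
      refine ⟨![n, y], ?_, rfl⟩
      rw [mem_filter, mem_Hyp]
      refine ⟨⟨⟨h2, hy.1⟩, ?_⟩, ?_⟩
      · show ((n : ℤ) : ZMod q) * ((y : ℤ) : ZMod q) = a
        rw [← hyn, mul_assoc, inv_mul_cancel₀ hy.2.2, mul_one]
      · intro j
        fin_cases j
        · exact h4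
        · exact hy.2.1
  rw [h1]
  have hB : (0 : ℝ) ≤ 2 * Real.sqrt q * (2 + Real.log q) := by positivity
  have h2 := interval_count (R a M K m (c 1)) _ hB
    (fun t ht => R_bound a ha M K hK0 hK m hm hmq (c 1) t ht) N L hL0 m hm hmq (c 0)
  have h3 := R_card a ha M K hK0 hK m hm (c 1)
  have hLR : (L : ℝ) ≤ q := by exact_mod_cast hL
  have hL0R : (0 : ℝ) ≤ L := by exact_mod_cast hL0
  have h4 : |(L : ℝ) * (R a M K m (c 1)).card / q / m - (L : ℝ) * K / q / (m : ℝ) ^ 2| ≤ 2 := by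
    have e : (L : ℝ) * (R a M K m (c 1)).card / q / m - (L : ℝ) * K / q / (m : ℝ) ^ 2 =
        (((R a M K m (c 1)).card : ℝ) - (K : ℝ) / m) * (L / q / m) := by
      field_simp
    rw [e, abs_mul, abs_of_nonneg (show (0 : ℝ) ≤ L / q / m by positivity)]
    have e2 : (L : ℝ) / q / m ≤ 1 := by
      rw [div_div, div_le_one (by positivity)]
      have : (1 : ℝ) ≤ m := by exact_mod_cast hm
      nlinarith
    calc |((R a M K m (c 1)).card : ℝ) - (K : ℝ) / m| * (L / q / m) ≤ 2 * 1 :=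
          mul_le_mul h3 e2 (by positivity) (by norm_num)
      _ = 2 := by norm_num
  have h5 := abs_le.1 h2
  have h6 := abs_le.1 h4
  rw [abs_le]
  constructor <;> linarith [h5.1, h5.2, h6.1, h6.2]

end

end Pool.Agent.helper825_CS
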